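import Mathlib
import Pool.Agent.TH588.KG.Sets

/-!
# 1-limited automata without choice what to write

For such an automaton the symbols written on the visited part of the tape are a function of the
input. The tables and the sets of states in which the head reaches a cell for the first time are
described here, `N` cells further to the right, by paths in a graph with `(N + 2) ^ 2` vertices
for each state.
-/

set_option autoImplicit false

namespace Pool.Agent.TH588.WD

open Relation
open Pool.Agent.H630R2.LA (Sym LimAut Cfg Step init fz Fr Tab ext nstep nreach initTape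
  mem_language lift Tab_zero Tab_succ FrS.mono FrS.decomp)
open Pool.Agent.TH588.KG (front_step)

/-- Two computations on the same input which are going to visit a cell with a letter for the first
time, with the same tape, write the same symbol in the cell. -/
def WriteDet {A : Type} (strict : Prop) (M : LimAut A) : Prop :=
  ∀ (w : List A) (c c' : Cfg M),
    ReflTransGen (Step strict w.length) (init M w) c →
    ReflTransGen (Step strict w.length) (init M w) c' →
    1 ≤ c.pos → c.pos ≤ w.length → c'.pos = c.pos → c.pos ∉ c.seen → c'.pos ∉ c'.seen →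
    c'.tape = c.tape →
    ∀ q b d q' b' d', (q, b, d) ∈ M.δ c.state (c.tape c.pos) →
      (q', b', d') ∈ M.δ c'.state (c.tape c.pos) → b = b'

variable {A : Type} (strict : Prop) (M : LimAut A) (c0 : M.W)

/-- The state `q` is one in which the machine can arrive at the cell `m + 1` for the first time. -/
def Ent (w : List A) (m : ℕ) (q : M.Q) : Prop := ∃ T, nreach strict M (initTape M w) m (T, q)

/-- The symbol `c` can be written in the cell `i + 1` at the first visit. -/
def Wr (w : List A) (i : ℕ) (c : M.W) : Prop :=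
  ∃ q, Ent strict M w i q ∧ ∃ r d, (r, c, d) ∈ M.δ q (initTape M w (i + 1))

open Classical in
/-- The symbol written in the cell `i + 1`. -/
noncomputable def con (w : List A) (i : ℕ) : M.W :=
  if h : ∃ c, Wr strict M w i c then h.choose else c0

/-- The tape after all its cells have been visited. -/
noncomputable def frz (w : List A) : ℕ → Sym M.W
  | 0 => .lm
  | i + 1 => (initTape M w (i + 1)).rewrite (con strict M c0 w i)

/-- The tape with `m` visited cells. -/
noncomputable def ftp (w : List A) (m i : ℕ) : Sym M.W :=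
  if i ≤ m then frz strict M c0 w i else initTape M w i

/-- The moves on a cell with the letter symbol `si`, which holds `sf` after the first visit. The
vertices are triples: state, position, number of visited cells. -/
def EL (sf si : Sym M.W) (u v : M.Q × ℕ × ℕ) : Prop :=
  (u.2.1 ≤ u.2.2 ∧ v.2.2 = u.2.2 ∧ ∃ d, fz strict M u.1 sf v.1 d ∧
    (d = true → v.2.1 = u.2.1 + 1) ∧ (d = false → v.2.1 + 1 = u.2.1)) ∨
  (u.2.1 = u.2.2 + 1 ∧ v.2.2 = u.2.2 + 1 ∧ ∃ b d, (v.1, b, d) ∈ M.δ u.1 si ∧
    (d = true → v.2.1 = u.2.1 + 1) ∧ (d = false → v.2.1 + 1 = u.2.1))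

/-- The moves in the `N` cells after the cell `m`; position `0` stands for the cells `0..m`. -/
def GS (w : List A) (m N : ℕ) (u v : M.Q × ℕ × ℕ) : Prop :=
  (u.2.1 = 0 ∧ v.2.1 = 1 ∧ v.2.2 = u.2.2 ∧ (u.1, v.1) ∈ Tab strict M (frz strict M c0 w) m) ∨
  (1 ≤ u.2.1 ∧ u.2.1 ≤ N ∧
    EL strict M (frz strict M c0 w (m + u.2.1)) (initTape M w (m + u.2.1)) u v)

variable {strict M c0}

theorem con_eq_default {w : List A} {i : ℕ} (h : ¬ ∃ c, Wr strict M w i c) :
    con strict M c0 w i = c0 := by
  unfold con
  rw [dif_neg h]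

theorem wr_con {w : List A} {i : ℕ} (h : ∃ c, Wr strict M w i c) :
    Wr strict M w i (con strict M c0 w i) := by
  unfold con
  rw [dif_pos h]
  exact h.choose_spec

/-- The tables are determined by the input, and the states of `Ent` are reached with the same
tape. -/
theorem good (hW : WriteDet strict M) (w : List A) (m : ℕ) : m ≤ w.length + 1 →
    ∀ (T : Set (M.Q × M.Q)) (q : M.Q), nreach strict M (initTape M w) m (T, q) →
    T = Tab strict M (frz strict M c0 w) m ∧ ∃ S : Set ℕ, (∀ i, 1 ≤ i → (i ∈ S ↔ i ≤ m)) ∧
      ReflTransGen (Step strict w.length) (init M w) ⟨q, m + 1, ftp strict M c0 w m, S⟩ := by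
  induction m with
  | zero =>
    intro _ T q hx
    have hx' : (T, q) = (ext strict M ∅ .lm, M.q0) := hx
    simp only [Prod.mk.injEq] at hx'
    obtain ⟨rfl, rfl⟩ := hx'
    have h0 : ftp strict M c0 w 0 = initTape M w := by
      funext i
      unfold ftp
      split
      · have : i = 0 := by omega
        subst this
        rfl
      · rfl
    refine ⟨by rw [Tab_zero]; rfl, ∅, ?_, ?_⟩
    · intro i hi; simp; omega
    · rw [h0]
      exact ReflTransGen.refl
  | succ m ih =>
    rintro hm T' q' ⟨⟨T, q⟩, hq, r, b, d, hδ, hR, hr, hl⟩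
    obtain ⟨hT, S, hS, hreach⟩ := ih (by omega) T q hq
    have hft : ftp strict M c0 w m (m + 1) = initTape M w (m + 1) := by
      unfold ftp
      rw [if_neg (by omega)]
    have hrew : (initTape M w (m + 1)).rewrite b = frz strict M c0 w (m + 1) := by
      cases hw : w[m]? with
      | none =>
        have h1 : initTape M w (m + 1) = .rm := by simp only [initTape, hw]
        simp only [frz]
        rw [h1]
        rfl
      | some a =>
        have hlt : m < w.length := (List.getElem?_eq_some_iff.1 hw).1
        have hex : ∃ c, Wr strict M w m c := ⟨b, q, ⟨T, hq⟩, r, d, hδ⟩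
        obtain ⟨q2, ⟨T2, hq2⟩, r2, d2, hδ2⟩ := wr_con (c0 := c0) hex
        obtain ⟨-, S2, hS2, hreach2⟩ := ih (by omega) T2 q2 hq2
        have hnot : ∀ U : Set ℕ, (∀ i, 1 ≤ i → (i ∈ U ↔ i ≤ m)) → m + 1 ∉ U := by
          intro U hU h
          have := (hU (m + 1) (by omega)).1 h
          omega
        have h1 : con strict M c0 w m = b := by
          refine hW w ⟨q2, m + 1, ftp strict M c0 w m, S2⟩ ⟨q, m + 1, ftp strict M c0 w m, S⟩
            hreach2 hreach (by show 1 ≤ m + 1; omega) (by show m + 1 ≤ w.length; omega) rfl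
            (hnot S2 hS2) (hnot S hS) rfl r2 _ d2 r b d ?_ ?_
          · show (r2, _, d2) ∈ M.δ q2 (ftp strict M c0 w m (m + 1))
            rw [hft]
            exact hδ2
          · show (r, b, d) ∈ M.δ q (ftp strict M c0 w m (m + 1))
            rw [hft]
            exact hδ
        simp only [frz]
        rw [h1]
    have hTab : T' = Tab strict M (frz strict M c0 w) (m + 1) := by
      have hR' : T' = ext strict M T ((initTape M w (m + 1)).rewrite b) := hR
      rw [hR', Tab_succ, hT, hrew]
    have hup : Function.update (ftp strict M c0 w m) (m + 1)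
        ((ftp strict M c0 w m (m + 1)).rewrite b) = ftp strict M c0 w (m + 1) := by
      rw [hft, hrew]
      funext i
      by_cases hi : i = m + 1
      · subst hi
        rw [Function.update_self]
        unfold ftp
        rw [if_pos le_rfl]
      · rw [Function.update_of_ne hi]
        unfold ftp
        by_cases h1 : i ≤ m
        · rw [if_pos h1, if_pos (by omega)]
        · rw [if_neg h1, if_neg (by omega)]
    refine ⟨hTab, ?_⟩
    have h0 : ftp strict M c0 w m 0 = .lm := by
      unfold ftp
      rw [if_pos (Nat.zero_le _)]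
      rfl
    have hT1 : Tab strict M (ftp strict M c0 w m) m = Tab strict M (frz strict M c0 w) m := by
      apply Pool.Agent.H630R2.LA.Tab.congr
      intro i hi
      unfold ftp
      rw [if_pos hi]
    have hT2 : Tab strict M (ftp strict M c0 w (m + 1)) (m + 1) =
        Tab strict M (frz strict M c0 w) (m + 1) := by
      apply Pool.Agent.H630R2.LA.Tab.congr
      intro i hi
      unfold ftp
      rw [if_pos hi]
    have hfs := front_step (q' := q') (by omega) hS h0 hreach (q := r) (b := b) (d := d)
      (by rw [hft]; exact hδ) hr (by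
        intro hd
        obtain ⟨s, h1, h2⟩ := hl hd
        refine ⟨s, ?_, ?_⟩
        · rw [hT1, ← hT]; exact h1
        · rw [hup, hT2, ← hTab]; exact h2)
    rw [hup] at hfs
    exact hfs

/-- The symbol written in a cell is determined by the input. -/
theorem rew_eq (hW : WriteDet strict M) {w : List A} {m : ℕ} {q r : M.Q} {b : M.W} {d : Bool}
    (hq : Ent strict M w m q) (hδ : (r, b, d) ∈ M.δ q (initTape M w (m + 1))) :
    (initTape M w (m + 1)).rewrite b = frz strict M c0 w (m + 1) := by
  cases hw : w[m]? with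
  | none =>
    have h1 : initTape M w (m + 1) = .rm := by simp only [initTape, hw]
    simp only [frz]
    rw [h1]
    rfl
  | some a =>
    have hlt : m < w.length := (List.getElem?_eq_some_iff.1 hw).1
    have hft : ftp strict M c0 w m (m + 1) = initTape M w (m + 1) := by
      unfold ftp
      rw [if_neg (by omega)]
    have hex : ∃ c, Wr strict M w m c := ⟨b, q, hq, r, d, hδ⟩
    obtain ⟨q2, ⟨T2, hq2⟩, r2, d2, hδ2⟩ := wr_con (c0 := c0) hex
    obtain ⟨T, hq1⟩ := hq
    obtain ⟨-, S2, hS2, hreach2⟩ := good (c0 := c0) hW w m (by omega) T2 q2 hq2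
    obtain ⟨-, S, hS, hreach⟩ := good (c0 := c0) hW w m (by omega) T q hq1
    have hnot : ∀ U : Set ℕ, (∀ i, 1 ≤ i → (i ∈ U ↔ i ≤ m)) → m + 1 ∉ U := by
      intro U hU h
      have := (hU (m + 1) (by omega)).1 h
      omega
    have h1 : con strict M c0 w m = b := by
      refine hW w ⟨q2, m + 1, ftp strict M c0 w m, S2⟩ ⟨q, m + 1, ftp strict M c0 w m, S⟩
        hreach2 hreach (by show 1 ≤ m + 1; omega) (by show m + 1 ≤ w.length; omega) rfl
        (hnot S2 hS2) (hnot S hS) rfl r2 _ d2 r b d ?_ ?_
      · show (r2, _, d2) ∈ M.δ q2 (ftp strict M c0 w m (m + 1))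
        rw [hft]
        exact hδ2
      · show (r, b, d) ∈ M.δ q (ftp strict M c0 w m (m + 1))
        rw [hft]
        exact hδ
    simp only [frz]
    rw [h1]

/-- The symbol in terms of `Wr`. -/
theorem con_of_wr (hW : WriteDet strict M) {w : List A} {m : ℕ} (hm : m < w.length) {c : M.W}
    (h : Wr strict M w m c) : con strict M c0 w m = c := by
  obtain ⟨q, hq, r, d, hδ⟩ := h
  have h1 := rew_eq (c0 := c0) hW hq hδ
  have hw : w[m]? = some w[m] := List.getElem?_eq_getElem hm
  have h2 : initTape M w (m + 1) = .sym (M.inp w[m]) := by simp only [initTape, hw]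
  simp only [frz] at h1
  rw [h2] at h1
  simp only [Sym.rewrite] at h1
  injection h1 with h3
  exact h3.symm

/-- The table is determined by the input. -/
theorem tab_of_nreach (hW : WriteDet strict M)
    (w : List A) (m : ℕ) : ∀ x : Set (M.Q × M.Q) × M.Q,
    nreach strict M (initTape M w) m x → x.1 = Tab strict M (frz strict M c0 w) m := by
  induction m with
  | zero =>
    intro x hx
    have hx' : x = (ext strict M ∅ .lm, M.q0) := hx
    rw [hx', Tab_zero]
    rfl
  | succ m ih =>
    rintro x ⟨y, hy, q, b, d, hδ, hR, -, -⟩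
    rw [hR, Tab_succ, ih y hy]
    congr 1
    exact rew_eq hW ⟨y.1, hy⟩ hδ

theorem ent_iff_tab (hW : WriteDet strict M) (c0 : M.W) (w : List A) (m : ℕ) (q : M.Q) :
    Ent strict M w m q ↔
      nreach strict M (initTape M w) m (Tab strict M (frz strict M c0 w) m, q) := by
  constructor
  · rintro ⟨T, hT⟩
    have := tab_of_nreach (c0 := c0) hW w m _ hT
    rw [← this]
    exact hT
  · intro h
    exact ⟨_, h⟩

theorem ent_zero (w : List A) (q : M.Q) : Ent strict M w 0 q ↔ q = M.q0 := by
  unfold Ent
  constructor
  · rintro ⟨T, h⟩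
    have h' : (T, q) = (ext strict M ∅ .lm, M.q0) := h
    exact (Prod.mk.inj h').2
  · rintro rfl
    exact ⟨ext strict M ∅ .lm, rfl⟩

theorem ent_succ (hW : WriteDet strict M)
    (w : List A) (m : ℕ) (q' : M.Q) : Ent strict M w (m + 1) q' ↔
      ∃ q, Ent strict M w m q ∧ ∃ r b d, (r, b, d) ∈ M.δ q (initTape M w (m + 1)) ∧
        (d = true → q' = r) ∧ (d = false → ∃ s, (r, s) ∈ Tab strict M (frz strict M c0 w) m ∧
          (s, q') ∈ Tab strict M (frz strict M c0 w) (m + 1)) := by
  constructor
  · rintro ⟨T, hT⟩
    have hT' : nreach strict M (initTape M w) (m + 1) (T, q') := hT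
    obtain ⟨y, hy, r, b, d, hδ, hR, h1, h2⟩ := hT
    have h3 := tab_of_nreach (c0 := c0) hW w m y hy
    have h4 : T = Tab strict M (frz strict M c0 w) (m + 1) := tab_of_nreach hW w (m + 1) _ hT'
    refine ⟨y.2, ⟨y.1, hy⟩, r, b, d, hδ, h1, ?_⟩
    rw [← h3, ← h4]
    exact h2
  · rintro ⟨q, hq, r, b, d, hδ, h1, h2⟩
    have hq' := (ent_iff_tab hW c0 w m q).1 hq
    refine ⟨Tab strict M (frz strict M c0 w) (m + 1), _, hq', r, b, d, hδ, ?_, h1, h2⟩
    show Tab strict M (frz strict M c0 w) (m + 1) = _
    rw [Tab_succ]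
    congr 1
    exact (rew_eq hW hq hδ).symm

theorem mem_language_iff
    (w : List A) : w ∈ M.language strict ↔ ∃ f ∈ M.F, Ent strict M w (w.length + 1) f := by
  rw [mem_language]
  constructor
  · rintro ⟨R, f, h1, h2⟩
    exact ⟨f, h2, R, h1⟩
  · rintro ⟨f, h1, R, h2⟩
    exact ⟨R, f, h2, h1⟩

theorem tab_complete {w : List A} {m N n f : ℕ} {p q : M.Q} (hnf : n ≤ f) (hnN : n ≤ N)
    (h : (p, q) ∈ Tab strict M (frz strict M c0 w) (m + n)) :
    ReflTransGen (GS strict M c0 w m N) (p, n, f) (q, n + 1, f) := by
  have h' : ReflTransGen (Fr strict M (frz strict M c0 w) (m + n)) (p, m + n) (q, m + n + 1) := h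
  have key : ∀ c : M.Q × ℕ, ReflTransGen (Fr strict M (frz strict M c0 w) (m + n)) c (q, m + n + 1) →
      (m < c.2 → ReflTransGen (GS strict M c0 w m N) (c.1, c.2 - m, f) (q, n + 1, f)) ∧
      (c.2 ≤ m → ∃ t, ReflTransGen (Fr strict M (frz strict M c0 w) m) c (t, m + 1) ∧
        ReflTransGen (GS strict M c0 w m N) (t, 1, f) (q, n + 1, f)) := by
    intro c hc
    induction hc using ReflTransGen.head_induction_on with
    | refl =>
      refine ⟨fun _ => ?_, fun h => ?_⟩
      · have h1 : m + n + 1 - m = n + 1 := by omega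
        rw [h1]
      · have h2 : m + n + 1 ≤ m := h
        omega
    | head h1 h2 ih =>
      rename_i a b
      obtain ⟨h3, d, h4, h5, h6⟩ := h1
      constructor
      · intro ha
        have hm : m + (a.2 - m) = a.2 := by omega
        have hstep : ∀ i', (d = true → i' = a.2 - m + 1) → (d = false → i' + 1 = a.2 - m) →
            GS strict M c0 w m N (a.1, a.2 - m, f) (b.1, i', f) := by
          intro i' h7 h8
          refine Or.inr ⟨by show 1 ≤ a.2 - m; omega, by show a.2 - m ≤ N; omega, Or.inl
            ⟨by show a.2 - m ≤ f; omega, rfl, d, ?_, h7, h8⟩⟩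
          show fz strict M a.1 (frz strict M c0 w (m + (a.2 - m))) b.1 d
          rw [hm]
          exact h4
        by_cases hb : m < b.2
        · refine ReflTransGen.head (hstep (b.2 - m) ?_ ?_) (ih.1 hb)
          · intro hd; have := h5 hd; omega
          · intro hd; have := h6 hd; omega
        · obtain ⟨t, ht1, ht2⟩ := ih.2 (by omega)
          have hd : d = false := by
            cases d
            · rfl
            · have := h5 rfl; omega
          have h7 := h6 hd
          have hb2 : b.2 = m := by omega
          refine ReflTransGen.head (hstep 0 (fun h => ?_) (fun _ => by omega)) ?_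
          · rw [hd] at h; exact absurd h (by simp)
          · refine ReflTransGen.head (b := (t, 1, f)) (Or.inl ⟨rfl, rfl, rfl, ?_⟩) ht2
            show ReflTransGen _ (b.1, m) (t, m + 1)
            have : b = (b.1, m) := by rw [← hb2]
            rw [← this]
            exact ht1
      · intro ha
        by_cases hb : b.2 ≤ m
        · obtain ⟨t, ht1, ht2⟩ := ih.2 hb
          exact ⟨t, ReflTransGen.head ⟨ha, d, h4, h5, h6⟩ ht1, ht2⟩
        · have hb2 : b.2 = m + 1 := by
            cases d
            · have := h6 rfl; omega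
            · have := h5 rfl; omega
          have h7 := ih.1 (by omega)
          have h8 : b.2 - m = 1 := by omega
          rw [h8] at h7
          refine ⟨b.1, ?_, h7⟩
          have : (b.1, m + 1) = b := by rw [← hb2]
          rw [this]
          exact ReflTransGen.single ⟨ha, d, h4, h5, h6⟩
  rcases Nat.eq_zero_or_pos n with h0 | h0
  · subst h0
    obtain ⟨t, ht1, ht2⟩ := (key _ h').2 (by simp)
    refine ReflTransGen.head (b := (t, 1, f)) (Or.inl ⟨rfl, rfl, rfl, ?_⟩) ht2
    exact ht1
  · have h1 := (key _ h').1 (by simp; omega)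
    have h2 : m + n - m = n := by omega
    simp only [h2] at h1
    exact h1

theorem tab_sound {w : List A} {m N : ℕ} {p q : M.Q}
    (h : ReflTransGen (GS strict M c0 w m N) (p, N, N) (q, N + 1, N)) :
    (p, q) ∈ Tab strict M (frz strict M c0 w) (m + N) := by
  have key : ∀ u : M.Q × ℕ × ℕ, ReflTransGen (GS strict M c0 w m N) (p, N, N) u →
      u.2.2 = N ∧ ReflTransGen (Fr strict M (frz strict M c0 w) (m + N)) (p, m + N) (u.1, m + u.2.1) := by
    intro u hu
    induction hu with
    | refl => exact ⟨rfl, ReflTransGen.refl⟩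
    | tail _ hstep ih =>
      rename_i u v _
      obtain ⟨ih1, ih2⟩ := ih
      rcases hstep with ⟨h1, h2, h3, h4⟩ | ⟨h1, h2, h3⟩
      · refine ⟨h3.trans ih1, ih2.trans ?_⟩
        rw [h1, h2]
        exact FrS.mono (Nat.le_add_right m N) h4
      · rcases h3 with ⟨h4, h5, d, h6, h7, h8⟩ | ⟨h4, _⟩
        · refine ⟨h5.trans ih1, ih2.tail ⟨by show m + u.2.1 ≤ m + N; omega, d, h6, ?_, ?_⟩⟩
          · intro hd; have := h7 hd; show m + v.2.1 = m + u.2.1 + 1; omega
          · intro hd; have := h8 hd; show m + v.2.1 + 1 = m + u.2.1; omega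
        · omega
  exact (key _ h).2

theorem ent_complete (hW : WriteDet strict M)
    {w : List A} {m N : ℕ} (n : ℕ) : ∀ q' : M.Q, n ≤ N → Ent strict M w (m + n) q' →
    ∃ q, Ent strict M w m q ∧
      ReflTransGen (GS strict M c0 w m N) (q, 1, 0) (q', n + 1, n) := by
  induction n with
  | zero => intro q' _ h; exact ⟨q', h, ReflTransGen.refl⟩
  | succ n ih =>
    intro q' hn h
    have h' : Ent strict M w ((m + n) + 1) q' := h
    rw [ent_succ (c0 := c0) hW] at h'
    obtain ⟨q1, hq1, r, b, d, hδ, h1, h2⟩ := h'
    obtain ⟨q, hq, hpath⟩ := ih q1 (by omega) hq1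
    refine ⟨q, hq, hpath.trans ?_⟩
    have hstep : ∀ i', (d = true → i' = n + 1 + 1) → (d = false → i' + 1 = n + 1) →
        GS strict M c0 w m N (q1, n + 1, n) (r, i', n + 1) := by
      intro i' h7 h8
      exact Or.inr ⟨by show 1 ≤ n + 1; omega, by show n + 1 ≤ N; omega,
        Or.inr ⟨rfl, rfl, b, d, hδ, h7, h8⟩⟩
    cases d
    · obtain ⟨s, hs1, hs2⟩ := h2 rfl
      refine ReflTransGen.head (hstep n (fun h => absurd h (by simp)) (fun _ => rfl)) ?_
      refine (tab_complete (by omega) (by omega) hs1).trans ?_
      exact tab_complete le_rfl hn hs2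
    · have h3 := h1 rfl
      rw [h3]
      exact ReflTransGen.single (hstep (n + 1 + 1) (fun _ => rfl) (fun h => absurd h (by simp)))

theorem ent_sound (hW : WriteDet strict M)
    {w : List A} {m N : ℕ} {q : M.Q} (hq : Ent strict M w m q) (u : M.Q × ℕ × ℕ)
    (h : ReflTransGen (GS strict M c0 w m N) (q, 1, 0) u) :
    u.2.1 ≤ u.2.2 + 1 ∧ ∀ t, ReflTransGen (Fr strict M (frz strict M c0 w) (m + u.2.2)) (u.1, m + u.2.1)
      (t, m + u.2.2 + 1) → Ent strict M w (m + u.2.2) t := by
  induction h with
  | refl =>
    refine ⟨le_rfl, ?_⟩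
    intro t ht
    rcases ReflTransGen.cases_head ht with h1 | ⟨c, h1, _⟩
    · have h2 : q = t := congrArg Prod.fst h1
      rw [← h2]
      exact hq
    · have h2 : m + 1 ≤ m + 0 := h1.1
      omega
  | tail _ hstep ih =>
    rename_i u v _
    obtain ⟨ih1, ih2⟩ := ih
    rcases hstep with ⟨h1, h2, h3, h4⟩ | ⟨h1, h2, h3⟩
    · refine ⟨by rw [h2]; omega, ?_⟩
      intro t ht
      rw [h3] at ht ⊢
      apply ih2
      rw [h1]
      rw [h2] at ht
      exact (FrS.mono (Nat.le_add_right m _) h4).trans ht
    · rcases h3 with ⟨h4, h5, d, h6, h7, h8⟩ | ⟨h4, h5, b, d, h6, h7, h8⟩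
      · refine ⟨?_, ?_⟩
        · cases d
          · have := h8 rfl; omega
          · have := h7 rfl; omega
        · intro t ht
          rw [h5] at ht ⊢
          apply ih2
          refine ReflTransGen.head ⟨by show m + u.2.1 ≤ m + u.2.2; omega, d, h6, ?_, ?_⟩ ht
          · intro hd; have := h7 hd; show m + v.2.1 = m + u.2.1 + 1; omega
          · intro hd; have := h8 hd; show m + v.2.1 + 1 = m + u.2.1; omega
      · have hu : Ent strict M w (m + u.2.2) u.1 := by
          apply ih2
          rw [h4]
          exact ReflTransGen.refl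
        refine ⟨?_, ?_⟩
        · cases d
          · have := h8 rfl; omega
          · have := h7 rfl; omega
        · intro t ht
          rw [h5] at ht ⊢
          have hgoal : Ent strict M w (m + u.2.2 + 1) t := by
            rw [ent_succ (c0 := c0) hW]
            rw [h4] at h6
            refine ⟨u.1, hu, v.1, b, d, h6, ?_, ?_⟩
            · intro hd
              have h9 := h7 hd
              rcases ReflTransGen.cases_head ht with h10 | ⟨c, h10, _⟩
              · exact (congrArg Prod.fst h10).symm
              · have h11 : m + v.2.1 ≤ m + (u.2.2 + 1) := h10.1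
                omega
            · intro hd
              have h9 := h8 hd
              have h10 : v.2.1 = u.2.2 := by omega
              rw [h10] at ht
              have ht' : ReflTransGen (Fr strict M (frz strict M c0 w) (m + u.2.2 + 1))
                  (v.1, m + u.2.2) (t, m + u.2.2 + 2) := ht
              obtain ⟨s, hs1, hs2⟩ := FrS.decomp ht' (by simp)
              exact ⟨s, hs1, hs2⟩
          exact hgoal

theorem tab_iff {w : List A} {m N : ℕ} {p q : M.Q} :
    (p, q) ∈ Tab strict M (frz strict M c0 w) (m + N) ↔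
      ReflTransGen (GS strict M c0 w m N) (p, N, N) (q, N + 1, N) :=
  ⟨fun h => tab_complete le_rfl le_rfl h, tab_sound⟩

theorem ent_iff (hW : WriteDet strict M)
    {w : List A} {m N : ℕ} {q' : M.Q} : Ent strict M w (m + N) q' ↔
      ∃ q, Ent strict M w m q ∧
        ReflTransGen (GS strict M c0 w m N) (q, 1, 0) (q', N + 1, N) := by
  constructor
  · exact ent_complete hW N q' le_rfl
  · rintro ⟨q, hq, h⟩
    exact (ent_sound hW hq _ h).2 q' ReflTransGen.refl

end Pool.Agent.TH588.WD
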