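import Mathlib
import Pool.Agent.TH588.LQ.Sav
import Pool.Agent.TH588.WD.Cmd

/-!
# Savitch's procedure, and reading neighbouring cells
-/

set_option autoImplicit false

namespace Pool.Agent.TH588.WD

open Relation Cmd
open Pool.Agent.TH588.LQ (pw pw_iff)

section savitch

variable {S V : Type} [DecidableEq V]

/-- Savitch's procedure. -/
def sav (l : List V) (ed : V → V → Cmd S Bool) : ℕ → V → V → Cmd S Bool
  | 0, u, v => if u = v then ret true else ed u v
  | k + 1, u, v => orL l (fun m => ite (sav l ed k u m) (sav l ed k m v) (ret false))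

theorem decides_sav {l : List V} (hl : ∀ m, m ∈ l) {ed : V → V → Cmd S Bool} {r : V → V → Prop}
    {τ : ℕ → S} {hi x : ℕ} (he : ∀ u v, Decides τ hi (ed u v) x x (r u v)) (k : ℕ) :
    ∀ u v, Decides τ hi (sav l ed k u v) x x (pw r k u v) := by
  induction k with
  | zero =>
    intro u v
    by_cases h : u = v
    · simp only [sav, if_pos h]
      exact (decides_ret _ _ _ _).congr (by simp [pw, h])
    · simp only [sav, if_neg h]
      exact (he u v).congr (by simp [pw, h])
  | succ k ih =>
    intro u v
    simp only [sav]
    have key : ∀ m, Decides τ hi (ite (sav l ed k u m) (sav l ed k m v) (ret false)) x x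
        (pw r k u m ∧ pw r k m v) := by
      intro m
      refine (decides_ite (χ := False) (ψ := pw r k m v) (ih u m) (fun _ => ih m v)
        (fun _ => (decides_ret _ _ _ _).congr (by simp))).congr (by tauto)
    refine (decides_orL l _ _ key).congr ?_
    constructor
    · rintro ⟨m, _, h1⟩; exact ⟨m, h1⟩
    · rintro ⟨m, h1⟩; exact ⟨m, hl m, h1⟩

theorem cnt_sav {l : List V} {ed : V → V → Cmd S Bool} {c : ℕ} (hc : ∀ u v, (ed u v).cnt ≤ c) (k : ℕ) :
    ∀ u v, (sav l ed k u v).cnt ≤ (2 * l.length) ^ k * c := by
  induction k with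
  | zero =>
    intro u v
    by_cases h : u = v
    · simp only [sav, if_pos h, cnt]
      exact Nat.zero_le _
    · simp only [sav, if_neg h, pow_zero, Nat.one_mul]
      exact hc u v
  | succ k ih =>
    intro u v
    simp only [sav]
    refine (cnt_orL l _ (2 * ((2 * l.length) ^ k * c)) ?_).trans ?_
    · intro m
      have h1 := ih u m
      have h2 := ih m v
      simp only [cnt]
      omega
    · rw [pow_succ]
      apply le_of_eq
      ring

end savitch

section cells

variable {S : Type}

/-- Test the cell `m` cells to the right of the head, and return. -/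
def chk (bit : S → Bool) (m : ℕ) : Cmd S Bool := mvs true m (thenLeft (test bit) m)

theorem cnt_chk (bit : S → Bool) (m : ℕ) : (chk bit m).cnt = 3 * m + 3 := by
  simp only [chk, cnt_mvs, cnt_thenLeft, cnt_test]; omega

theorem decides_chk {τ : ℕ → S} {hi x m : ℕ} (bit : S → Bool) (hx : 1 ≤ x) (hm : x + m ≤ hi) :
    Decides τ hi (chk bit m) x x (bit (τ (x + m)) = true) := by
  apply decides_mvs_right (by omega)
  apply decides_thenLeft _ hm
  exact decides_test bit (by omega) hm

/-- Test the scanned cell and the next one; the head returns. -/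
def tst2 [Finite S] (f : S → S → Bool) : Cmd S Bool :=
  aut (Option S) inferInstance none (fun z σ => match z with
    | none => Sum.inl (some σ)
    | some ρ => Sum.inr (f ρ σ)) (fun z _ => match z with
    | none => true
    | some _ => false)

theorem cnt_tst2 [Finite S] (f : S → S → Bool) : (tst2 f).cnt = Nat.card S + 1 := by
  show Nat.card (Option S) = _
  rw [Finite.card_option]

theorem decides_tst2 [Finite S] {τ : ℕ → S} {hi x : ℕ} (f : S → S → Bool) (hx : x + 1 ≤ hi) :
    Decides τ hi (tst2 f) x x (f (τ x) (τ (x + 1)) = true) := by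
  refine ⟨f (τ x) (τ (x + 1)), ?_, Iff.rfl⟩
  refine Run.loop _ _ none (some (τ x)) _ _ x (x + 1) x _ (by omega) rfl (fun _ => rfl)
    (fun h => absurd h (by simp)) ?_
  exact Run.stop _ _ (some (τ x)) _ _ (x + 1) x _ hx rfl (fun h => absurd h (by simp))
    (fun _ => rfl)

/-- Test the cell `m` cells to the right of the head and the next one, and return. -/
def chk2 [Finite S] (f : S → S → Bool) (m : ℕ) : Cmd S Bool :=
  mvs true m (thenLeft (tst2 f) m)

theorem cnt_chk2 [Finite S] (f : S → S → Bool) (m : ℕ) :
    (chk2 f m).cnt = 3 * m + Nat.card S + 1 := by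
  simp only [chk2, cnt_mvs, cnt_thenLeft, cnt_tst2]; omega

theorem decides_chk2 [Finite S] {τ : ℕ → S} {hi x m : ℕ} (f : S → S → Bool)
    (hm : x + m + 1 ≤ hi) :
    Decides τ hi (chk2 f m) x x (f (τ (x + m)) (τ (x + m + 1)) = true) := by
  apply decides_mvs_right (by omega)
  apply decides_thenLeft _ (by omega)
  exact decides_tst2 f hm

end cells

end Pool.Agent.TH588.WD
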