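import Mathlib
import Pool.Agent.TH588.LQ.Size
import Pool.Agent.TH588.WD.Sav
import Pool.Agent.TH588.WD.Graph
import Pool.Agent.TH588.WD.Mach

/-!
# The programs of the deterministic simulation
-/

set_option autoImplicit false

namespace Pool.Agent.TH588.WD

open Relation Cmd
open Pool.Agent.H630R2.LA (Sym LimAut fz Tab ext initTape Tab_zero)
open Pool.Agent.TH588.LQ (bl Bits cod ini Vx val mkv val_mkv val_inj lV mem_lV length_lV lQ mem_lQ
  length_lQ nn pw_iff)

variable {A : Type} (strict : Prop) (M : LimAut A) (c0 : M.W) {s : ℕ} (e : M.Q ≃ Fin s)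

/-- The tape symbols of the deterministic machine. -/
abbrev Tp (M : LimAut A) : Type := Sym (WR A (Bool × M.W))

instance [Finite A] : Finite (Tp M) := by
  have := M.finW
  exact Pool.Agent.H630R2.LA.finite_Sym _

/-- The value of a bit after `m` cells. -/
def btv (w : List A) (m : ℕ) : Bits M → Prop
  | Sum.inl x => x ∈ Tab strict M (frz strict M c0 w) m
  | Sum.inr q => Ent strict M w m q

theorem ini_iff (w : List A) (x : Bits M) : ini strict M x = true ↔ btv strict M c0 w 0 x := by
  rcases x with x | q
  · simp only [ini, btv, decide_eq_true_eq]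
    rw [Tab_zero]
    rfl
  · simp only [ini, btv, decide_eq_true_eq]
    exact (ent_zero w q).symm

/-- The bit of a visited cell. -/
def bitR (σ : Tp M) : Bool := match σ with
  | .sym (.mark _ r) => r.1
  | _ => false

/-- Read a bit: from the tape (`src = true`), or the initial one. The head is on the first cell of
the block. -/
noncomputable def bitP (src : Bool) (x : Bits M) : Cmd (Tp M) Bool :=
  if src = true then chk (bitR M) (cod M e x).val else ret (ini strict M x)

variable [Finite A]

open Classical in
/-- Decide one edge. `n'` is the number of letters, `fn` tells whether the right end-marker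
follows, the content of the cell `lp` is `c`. The head is on the first cell of the block. -/
noncomputable def edP (src : Bool) (n' : ℕ) (fn : Bool) (lp : ℕ) (c : M.W) (u v : Vx M s) :
    Cmd (Tp M) Bool :=
  if u.2.1.val = 0 then
    (if v.2.1.val = 1 ∧ v.2.2.val = u.2.2.val then bitP strict M e src (Sum.inl (u.1, v.1))
      else ret false)
  else if u.2.1.val ≤ n' then
    (if u.2.1.val = lp then
      chk (fun σ => match σ with
        | .sym (.mark a _) => decide (EL strict M (.sym c) (.sym (M.inp a)) (val M u) (val M v))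
        | _ => false) (u.2.1.val - 1)
    else
      chk2 (fun σ ρ => match σ, ρ with
        | .sym (.mark a _), .sym (.mark _ r) =>
          decide (EL strict M (.sym r.2) (.sym (M.inp a)) (val M u) (val M v))
        | _, _ => false) (u.2.1.val - 1))
  else ret (decide (fn = true ∧ u.2.1.val = n' + 1 ∧ EL strict M .rm .rm (val M u) (val M v)))

variable {strict M c0 e}

/-- The hypotheses on the tape: `m` is the number of cells before the block. -/
structure TapeOK (strict : Prop) (M : LimAut A) (c0 : M.W) (e : M.Q ≃ Fin s) (w : List A)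
    (τ : ℕ → Tp M) (hi m n' : ℕ) (src : Bool) (lp : ℕ) (c : M.W) : Prop where
  bit : ∀ x, Decides τ hi (bitP strict M e src x) (m + 1) (m + 1) (btv strict M c0 w m x)
  lt : ∀ i, i < n' → ∃ a r, w[m + i]? = some a ∧ τ (m + i + 1) = .sym (.mark a r)
  con : ∀ i, i < n' → i + 1 ≠ lp → m + i + 2 ≤ hi ∧ ∃ a r, τ (m + i + 2) = .sym (.mark a r) ∧
    r.2 = con strict M c0 w (m + i)
  ov : 1 ≤ lp → lp ≤ n' → c = WD.con strict M c0 w (m + (lp - 1))
  hi : m + n' ≤ hi

theorem decides_edP {w : List A} {τ : ℕ → Tp M} {hi m n' lp : ℕ} {c : M.W} {src fn : Bool}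
    (hT : TapeOK strict M c0 e w τ hi m n' src lp c)
    (hfn : fn = true → m + n' = w.length) (u v : Vx M s) :
    Decides τ hi (edP strict M e src n' fn lp c u v) (m + 1) (m + 1)
      (GS strict M c0 w m (nn n' fn) (val M u) (val M v)) := by
  classical
  have hhi := hT.hi
  unfold edP
  by_cases h0 : u.2.1.val = 0
  · rw [if_pos h0]
    by_cases h1 : v.2.1.val = 1 ∧ v.2.2.val = u.2.2.val
    · rw [if_pos h1]
      refine (hT.bit _).congr ?_
      constructor
      · intro h
        exact Or.inl ⟨h0, h1.1, h1.2, h⟩
      · rintro (h | h)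
        · exact h.2.2.2
        · have h2 : 1 ≤ u.2.1.val := h.1
          omega
    · rw [if_neg h1]
      refine (decides_ret _ _ _ _).congr ?_
      simp only [Bool.false_eq_true, false_iff]
      rintro (h | h)
      · exact h1 ⟨h.2.1, h.2.2.1⟩
      · have h2 : 1 ≤ u.2.1.val := h.1
        omega
  · rw [if_neg h0]
    by_cases h1 : u.2.1.val ≤ n'
    · rw [if_pos h1]
      obtain ⟨a, b, ha, hτ⟩ := hT.lt (u.2.1.val - 1) (by omega)
      have e1 : m + 1 + (u.2.1.val - 1) = m + (u.2.1.val - 1) + 1 := by omega
      have e2 : m + u.2.1.val = m + (u.2.1.val - 1) + 1 := by omega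
      have h4 : initTape M w (m + (val M u).2.1) = .sym (M.inp a) := by
        show initTape M w (m + u.2.1.val) = _
        rw [e2]
        simp only [initTape, ha]
      have h3 : frz strict M c0 w (m + (val M u).2.1) =
          .sym (WD.con strict M c0 w (m + (u.2.1.val - 1))) := by
        show frz strict M c0 w (m + u.2.1.val) = _
        rw [e2]
        simp only [frz]
        have h5 : initTape M w (m + (u.2.1.val - 1) + 1) = .sym (M.inp a) := by
          simp only [initTape, ha]
        rw [h5]
        rfl
      have hGS : GS strict M c0 w m (nn n' fn) (val M u) (val M v) ↔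
          EL strict M (.sym (WD.con strict M c0 w (m + (u.2.1.val - 1)))) (.sym (M.inp a))
            (val M u) (val M v) := by
        unfold GS
        rw [h3, h4]
        constructor
        · rintro (h | h)
          · exact absurd h.1 h0
          · exact h.2.2
        · intro h
          refine Or.inr ⟨by show 1 ≤ u.2.1.val; omega, ?_, h⟩
          show u.2.1.val ≤ nn n' fn
          unfold nn
          split <;> omega
      rw [hGS]
      by_cases h2 : u.2.1.val = lp
      · rw [if_pos h2]
        refine (decides_chk _ (by omega) (by omega)).congr ?_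
        rw [e1, hτ]
        simp only [decide_eq_true_eq]
        have h5 := hT.ov (by omega) (by omega)
        rw [← h2] at h5
        rw [h5]
      · rw [if_neg h2]
        obtain ⟨h5, a', r', h6, h7⟩ := hT.con (u.2.1.val - 1) (by omega) (by omega)
        have e3 : m + 1 + (u.2.1.val - 1) + 1 = m + (u.2.1.val - 1) + 2 := by omega
        refine (decides_chk2 _ (by omega)).congr ?_
        rw [e3, e1, hτ, h6]
        simp only [decide_eq_true_eq]
        rw [h7]
    · rw [if_neg h1]
      refine (decides_ret _ _ _ _).congr ?_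
      simp only [decide_eq_true_eq]
      constructor
      · rintro ⟨hf, h2, h3⟩
        have hw := hfn hf
        have e2 : m + (val M u).2.1 = w.length + 1 := by
          show m + u.2.1.val = _
          omega
        have hnone : w[w.length]? = none := List.getElem?_eq_none le_rfl
        refine Or.inr ⟨by show 1 ≤ u.2.1.val; omega, ?_, ?_⟩
        · show u.2.1.val ≤ nn n' fn
          rw [nn, if_pos hf]
          omega
        · rw [e2]
          simp only [frz, initTape, hnone]
          exact h3
      · rintro (h | ⟨h2, h3, h4⟩)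
        · exact absurd h.1 h0
        · have h5 : u.2.1.val ≤ nn n' fn := h3
          unfold nn at h5
          have hf : fn = true := by
            by_contra hc
            rw [if_neg hc] at h5
            exact h1 h5
          rw [if_pos hf] at h5
          have hw := hfn hf
          have e2 : m + (val M u).2.1 = w.length + 1 := by
            show m + u.2.1.val = _
            omega
          have hnone : w[w.length]? = none := List.getElem?_eq_none le_rfl
          rw [e2] at h4
          simp only [frz, initTape, hnone] at h4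
          exact ⟨hf, by omega, h4⟩

omit [Finite A] in
theorem reach_val {w : List A} {m N : ℕ} (hN : N ≤ 2 * bl s) {u v : Vx M s} :
    ReflTransGen (fun u v : Vx M s => GS strict M c0 w m N (val M u) (val M v)) u v ↔
      ReflTransGen (GS strict M c0 w m N) (val M u) (val M v) := by
  constructor
  · intro h
    exact ReflTransGen.lift (val M) (fun _ _ h => h) _ _ h
  · intro h
    have key : ∀ x, ReflTransGen (GS strict M c0 w m N) (val M u) x → ∃ x' : Vx M s,
        val M x' = x ∧
        ReflTransGen (fun u v : Vx M s => GS strict M c0 w m N (val M u) (val M v)) u x' := by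
      intro x hx
      induction hx with
      | refl => exact ⟨u, rfl, ReflTransGen.refl⟩
      | tail _ hstep ih =>
        rename_i y z _
        obtain ⟨y', hy, hr⟩ := ih
        have hyf : y.2.2 < 2 * bl s + 2 := by rw [← hy]; exact y'.2.2.isLt
        have hz : z.2.1 < 2 * bl s + 2 ∧ z.2.2 < 2 * bl s + 2 := by
          rcases hstep with ⟨h1, h2, h3, _⟩ | ⟨h1, h2, h3⟩
          · exact ⟨by omega, by omega⟩
          · rcases h3 with ⟨h4, h5, d, _, h7, h8⟩ | ⟨h4, h5, b, d, _, h7, h8⟩
            · refine ⟨?_, by omega⟩
              cases d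
              · have := h8 rfl; omega
              · have := h7 rfl; omega
            · refine ⟨?_, by omega⟩
              cases d
              · have := h8 rfl; omega
              · have := h7 rfl; omega
        refine ⟨mkv M z.1 z.2.1 z.2.2, val_mkv M z.1 hz.1 hz.2, hr.tail ?_⟩
        show GS strict M c0 w m N (val M y') (val M (mkv M z.1 z.2.1 z.2.2))
        rw [hy, val_mkv M z.1 hz.1 hz.2]
        exact hstep
    obtain ⟨v', hv, hr⟩ := key _ h
    rw [← val_inj M hv]
    exact hr

open Classical in
/-- Reachability in the graph. -/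
noncomputable def rea (strict : Prop) (M : LimAut A) (e : M.Q ≃ Fin s) (K : ℕ)
    (src : Bool) (n' : ℕ) (fn : Bool) (lp : ℕ) (c : M.W) (u v : Vx M s) : Cmd (Tp M) Bool :=
  sav (lV M) (edP strict M e src n' fn lp c) K u v

theorem decides_rea {K : ℕ} (hK : Nat.card (Vx M s) ≤ 2 ^ K) {w : List A} {τ : ℕ → Tp M}
    {hi m n' lp : ℕ} {c : M.W} {src fn : Bool}
    (hT : TapeOK strict M c0 e w τ hi m n' src lp c)
    (hfn : fn = true → m + n' = w.length) (hN : nn n' fn ≤ 2 * bl s)
    (u v : Vx M s) :
    Decides τ hi (rea strict M e K src n' fn lp c u v) (m + 1) (m + 1)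
      (ReflTransGen (GS strict M c0 w m (nn n' fn)) (val M u) (val M v)) := by
  classical
  unfold rea
  refine (decides_sav (mem_lV M) (decides_edP hT hfn) K u v).congr ?_
  rw [pw_iff hK]
  exact reach_val hN

/-- Can `q` be the first state after the cells of the graph? -/
noncomputable def enP (strict : Prop) (M : LimAut A) (e : M.Q ≃ Fin s) (K : ℕ) (src : Bool)
    (n' : ℕ) (fn : Bool) (lp : ℕ) (c : M.W) (q : M.Q) : Cmd (Tp M) Bool :=
  orL (lQ M) (fun q0 => ite (bitP strict M e src (Sum.inr q0))
    (rea strict M e K src n' fn lp c (mkv M q0 1 0) (mkv M q (nn n' fn + 1) (nn n' fn)))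
    (ret false))

theorem decides_enP (hW : WriteDet strict M)
    {K : ℕ} (hK : Nat.card (Vx M s) ≤ 2 ^ K) {w : List A} {τ : ℕ → Tp M}
    {hi m n' lp : ℕ} {c : M.W} {src fn : Bool}
    (hT : TapeOK strict M c0 e w τ hi m n' src lp c)
    (hfn : fn = true → m + n' = w.length) (hN : nn n' fn ≤ 2 * bl s)
    (q : M.Q) :
    Decides τ hi (enP strict M e K src n' fn lp c q) (m + 1) (m + 1)
      (Ent strict M w (m + nn n' fn) q) := by
  unfold enP
  have key : ∀ q0, Decides τ hi (ite (bitP strict M e src (Sum.inr q0))
      (rea strict M e K src n' fn lp c (mkv M q0 1 0) (mkv M q (nn n' fn + 1) (nn n' fn)))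
      (ret false)) (m + 1) (m + 1) (Ent strict M w m q0 ∧
        ReflTransGen (GS strict M c0 w m (nn n' fn)) (q0, 1, 0) (q, nn n' fn + 1, nn n' fn)) := by
    intro q0
    have h1 := decides_rea hK hT hfn hN (mkv M q0 1 0)
      (mkv M q (nn n' fn + 1) (nn n' fn))
    rw [val_mkv M q0 (by omega) (by omega), val_mkv M q (by omega) (by omega)] at h1
    exact (decides_ite (χ := False) (hT.bit (Sum.inr q0)) (fun _ => h1)
      (fun _ => (decides_ret _ _ _ _).congr (by simp))).congr (by simp [btv])
  refine (decides_orL _ _ _ key).congr ?_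
  rw [ent_iff (c0 := c0) hW]
  constructor
  · rintro ⟨q0, _, h⟩; exact ⟨q0, h⟩
  · rintro ⟨q0, h⟩; exact ⟨q0, mem_lQ M q0, h⟩

open Classical in
/-- Is `c` written in the cell `m + n' + 1`? -/
noncomputable def ctP (strict : Prop) (M : LimAut A) (e : M.Q ≃ Fin s) (K : ℕ) (src : Bool)
    (n' : ℕ) (c : M.W) : Cmd (Tp M) Bool :=
  orL (lQ M) (fun q => ite (chk (fun σ => match σ with
      | .sym (.mark a _) => decide (∃ r d, (r, c, d) ∈ M.δ q (.sym (M.inp a)))
      | _ => false) n')
    (enP strict M e K src n' false 0 c q) (ret false))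

theorem decides_ctP (hW : WriteDet strict M)
    {K : ℕ} (hK : Nat.card (Vx M s) ≤ 2 ^ K) {w : List A} {τ : ℕ → Tp M}
    {hi m n' : ℕ} {c : M.W} {src : Bool}
    (hT : TapeOK strict M c0 e w τ hi m n' src 0 c) (hN : n' ≤ 2 * bl s)
    (hl : ∃ a r, w[m + n']? = some a ∧ τ (m + n' + 1) = .sym (.mark a r))
    (hhi : m + n' + 1 ≤ hi) :
    Decides τ hi (ctP strict M e K src n' c) (m + 1) (m + 1) (Wr strict M w (m + n') c) := by
  classical
  obtain ⟨a, r, ha, hτ⟩ := hl
  have hini : initTape M w (m + n' + 1) = .sym (M.inp a) := by simp only [initTape, ha]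
  unfold ctP
  have key : ∀ q, Decides τ hi (ite (chk (fun σ => match σ with
      | .sym (.mark a _) => decide (∃ r d, (r, c, d) ∈ M.δ q (.sym (M.inp a)))
      | _ => false) n')
      (enP strict M e K src n' false 0 c q) (ret false)) (m + 1) (m + 1)
      ((∃ r d, (r, c, d) ∈ M.δ q (.sym (M.inp a))) ∧ Ent strict M w (m + n') q) := by
    intro q
    have h1 := decides_enP (fn := false) hW hK hT (fun h => absurd h (by simp)) hN q
    have h2 : Decides τ hi (chk (fun σ => match σ with
      | .sym (.mark a _) => decide (∃ r d, (r, c, d) ∈ M.δ q (.sym (M.inp a)))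
      | _ => false) n') (m + 1) (m + 1) (∃ r d, (r, c, d) ∈ M.δ q (.sym (M.inp a))) := by
      refine (decides_chk _ (by omega) (by omega)).congr ?_
      have e1 : m + 1 + n' = m + n' + 1 := by omega
      rw [e1, hτ]
      simp only [decide_eq_true_eq]
    exact (decides_ite (χ := False) h2 (fun _ => h1)
      (fun _ => (decides_ret _ _ _ _).congr (by simp))).congr
        Pool.Agent.TH588.KG.pl1
  refine (decides_orL _ _ _ key).congr ?_
  unfold Wr
  rw [hini]
  constructor
  · rintro ⟨q, _, h1, h2⟩; exact ⟨q, h2, h1⟩
  · rintro ⟨q, h1, h2⟩; exact ⟨q, mem_lQ M q, h2, h1⟩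

end Pool.Agent.TH588.WD
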