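import Mathlib
import Pool.Agent.TH588.WD.Prog

/-!
# The deterministic simulation
-/

set_option autoImplicit false

namespace Pool.Agent.TH588.WD

open Relation Cmd
open Pool.Agent.H630R2.LA (Sym LimAut fz Tab ext initTape Tab_zero)
open Pool.Agent.TH588.LQ (bl Bits cod ini Vx val mkv val_mkv val_inj lV mem_lV length_lV lQ mem_lQ
  length_lQ nn pw_iff two_le_bl)

section withC

variable {S R W : Type}

/-- Find the first `c` in the list that passes the test, and go on with it. -/
def withC (ct : W → Cmd S Bool) (body : W → Cmd S R) (c0 : W) (l : List W) : Cmd S R :=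
  l.foldr (fun c acc => ite (ct c) (body c) acc) (body c0)

theorem run_withC {τ : ℕ → S} {hi x y : ℕ} {r : R} {ct : W → Cmd S Bool} {body : W → Cmd S R}
    {c0 cs : W} {P : W → Prop} (hct : ∀ c, Decides τ hi (ct c) x x (P c))
    (hP : ∀ c, P c → c = cs) (hbody : Run τ hi (body cs) x r y) (l : List W)
    (hN : (∀ c ∈ l, ¬ P c) → cs = c0) : Run τ hi (withC ct body c0 l) x r y := by
  induction l with
  | nil =>
    have h : cs = c0 := hN (fun c hc => absurd hc (by simp))
    rw [← h]
    exact hbody
  | cons a l ih =>
    obtain ⟨b, hb, hb'⟩ := hct a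
    cases b
    · have hn : ¬ P a := fun h => absurd (hb'.2 h) (by simp)
      refine Run.iteF _ _ _ x x y r hb (ih (fun h => hN (fun c hc => ?_)))
      rcases List.mem_cons.1 hc with h1 | h1
      · rw [h1]; exact hn
      · exact h c h1
    · have h : a = cs := hP a (hb'.1 rfl)
      subst h
      exact Run.iteT _ _ _ x x y r hb hbody

theorem cnt_withC {ct : W → Cmd S Bool} {body : W → Cmd S R} {c0 : W} {C1 C2 : ℕ}
    (h1 : ∀ c, (ct c).cnt ≤ C1) (h2 : ∀ c, (body c).cnt ≤ C2) (l : List W) :
    (withC ct body c0 l).cnt ≤ l.length * (C1 + C2) + C2 := by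
  induction l with
  | nil => simpa [withC] using h2 c0
  | cons a l ih =>
    have h3 := h1 a
    have h4 := h2 a
    have e : (withC ct body c0 (a :: l)) = ite (ct a) (body a) (withC ct body c0 l) := rfl
    rw [e]
    simp only [cnt, List.length_cons, Nat.add_mul]
    omega

end withC

variable {A : Type} [Finite A] (strict : Prop) (M : LimAut A) (c0 : M.W) {s : ℕ}
  (e : M.Q ≃ Fin s)

/-- All work symbols. -/
noncomputable def lW : List M.W := by
  have := M.finW
  have := Fintype.ofFinite M.W
  exact (Finset.univ : Finset M.W).toList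

omit [Finite A] in
theorem mem_lW (q : M.W) : q ∈ lW M := by
  simp [lW]

omit [Finite A] in
theorem length_lW : (lW M).length = Nat.card M.W := by
  have := M.finW
  let _ := Fintype.ofFinite M.W
  rw [Nat.card_eq_fintype_card, ← Finset.card_univ, ← Finset.length_toList]
  rfl

/-- The next bit. -/
noncomputable def qry (K lp : ℕ) (c : M.W) (k : Fin (bl s)) : Cmd (Tp M) Bool :=
  match (cod M e).symm k with
  | Sum.inl x => rea strict M e K true (bl s) false lp c (mkv M x.1 (bl s) (bl s))
      (mkv M x.2 (bl s + 1) (bl s))
  | Sum.inr q => enP strict M e K true (bl s) false lp c q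

open Classical in
/-- Acceptance. -/
noncomputable def acP (K : ℕ) (src : Bool) (n' lp : ℕ) (c : M.W) : Cmd (Tp M) Bool :=
  orL (lQ M) (fun f => if f ∈ M.F then enP strict M e K src n' true lp c f else ret false)

/-- The program for the next annotation. -/
noncomputable def mainP (K : ℕ) (k : Fin (bl s)) : Cmd (Tp M) (Bool × M.W) :=
  haveI : Inhabited (Bool × M.W) := ⟨(false, c0)⟩
  mvs false k.val (ite (act lmS lmS)
    (withC (ctP strict M e K false (k.val - 1))
      (fun c => mvs true k.val (ret (ini strict M ((cod M e).symm k), c))) c0 (lW M))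
    (mvs false (bl s - 2) (withC (ctP strict M e K true (bl s + k.val - 1))
      (fun c => ite (qry strict M e K (bl s + k.val) c k)
        (mvs true (bl s + k.val) (ret (true, c))) (mvs true (bl s + k.val) (ret (false, c))))
      c0 (lW M))))

/-- The program for acceptance. -/
noncomputable def finP (K : ℕ) (k : Fin (bl s)) : Cmd (Tp M) Bool :=
  mvs false k.val (ite (act lmS lmS)
    (if k.val = 0 then acP strict M e K false 0 0 c0 else
      withC (ctP strict M e K false (k.val - 1))
        (fun c => thenRight (acP strict M e K false k.val k.val c) k.val) c0 (lW M))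
    (mvs false (bl s - 2) (withC (ctP strict M e K true (bl s + k.val - 1))
      (fun c => thenRight (acP strict M e K true (bl s + k.val) (bl s + k.val) c)
        (bl s + k.val)) c0 (lW M))))

/-- The plan of the simulation. -/
noncomputable def plan (hs : 1 ≤ s) (K : ℕ) : Plan A (Bool × M.W) where
  B := bl s
  hB := by have := two_le_bl hs; omega
  r0 := (ini strict M ((cod M e).symm ⟨0, by have := two_le_bl hs; omega⟩), c0)
  main := mainP strict M c0 e K
  fin := finP strict M c0 e K

/-- The meaning of the bits. -/
def btw (w : List A) (m : ℕ) (k : Fin (bl s)) : Prop := btv strict M c0 w m ((cod M e).symm k)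

/-- The meaning of the annotations. -/
def an (w : List A) (i : ℕ) (r : Bool × M.W) : Prop :=
  (r.1 = true ↔ ∀ k : Fin (bl s), k.val = i % bl s → btw strict M c0 e w ((i / bl s) * bl s) k) ∧
    (1 ≤ i → r.2 = con strict M c0 w (i - 1))

variable {strict M c0 e}

theorem decides_qry (hW : WriteDet strict M)
    {K : ℕ} (hK : Nat.card (Vx M s) ≤ 2 ^ K) {w : List A} {τ : ℕ → Tp M} {hi m lp : ℕ} {c : M.W}
    (hT : TapeOK strict M c0 e w τ hi m (bl s) true lp c) (k : Fin (bl s)) :
    Decides τ hi (qry strict M e K lp c k) (m + 1) (m + 1)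
      (btw strict M c0 e w (m + bl s) k) := by
  have hnn : nn (bl s) false = bl s := rfl
  unfold qry btw
  rcases (cod M e).symm k with ⟨p, q⟩ | q
  · have h1 := decides_rea (fn := false) hK hT (fun h => absurd h (by simp))
      (by rw [hnn]; omega) (mkv M p (bl s) (bl s)) (mkv M q (bl s + 1) (bl s))
    rw [val_mkv M p (by omega) (by omega), val_mkv M q (by omega) (by omega), hnn] at h1
    refine h1.congr ?_
    show _ ↔ (p, q) ∈ Tab strict M (frz strict M c0 w) (m + bl s)
    exact tab_iff.symm
  · have h1 := decides_enP (fn := false) hW hK hT (fun h => absurd h (by simp))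
      (by rw [hnn]; omega) q
    rw [hnn] at h1
    exact h1

theorem decides_acP (hW : WriteDet strict M)
    {K : ℕ} (hK : Nat.card (Vx M s) ≤ 2 ^ K) {w : List A} {τ : ℕ → Tp M}
    {hi m n' lp : ℕ} {c : M.W} {src : Bool}
    (hT : TapeOK strict M c0 e w τ hi m n' src lp c)
    (hw : m + n' = w.length) (hN : n' + 1 ≤ 2 * bl s) :
    Decides τ hi (acP strict M e K src n' lp c) (m + 1) (m + 1) (w ∈ M.language strict) := by
  classical
  have hnn : nn n' true = n' + 1 := rfl
  unfold acP
  have key : ∀ f, Decides τ hi (if f ∈ M.F then enP strict M e K src n' true lp c f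
      else ret false) (m + 1) (m + 1) (f ∈ M.F ∧ Ent strict M w (w.length + 1) f) := by
    intro f
    by_cases hf : f ∈ M.F
    · rw [if_pos hf]
      have h1 := decides_enP (fn := true) hW hK hT (fun _ => hw) (by rw [hnn]; exact hN) f
      have h2 : m + nn n' true = w.length + 1 := by rw [hnn]; omega
      rw [h2] at h1
      exact h1.congr (by simp [hf])
    · rw [if_neg hf]
      exact (decides_ret _ _ _ _).congr (by simp [hf])
  refine (decides_orL _ _ _ key).congr ?_
  rw [mem_language_iff]
  constructor
  · rintro ⟨f, _, h⟩; exact ⟨f, h⟩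
  · rintro ⟨f, h⟩; exact ⟨f, mem_lQ M f, h⟩

/-- The annotation. -/
abbrev An (strict : Prop) (M : LimAut A) (c0 : M.W) (e : M.Q ≃ Fin s) (w : List A)
    (τ : ℕ → Tp M) (t : ℕ) : Prop := Plan.Ann (an strict M c0 e w) w τ t

omit [Finite A] in
theorem bit_tape {w : List A} {τ : ℕ → Tp M} {t hi j : ℕ}
    (hA : An strict M c0 e w τ t) (hj : j * bl s + bl s ≤ t) (ht : t ≤ hi) (x : Bits M) :
    Decides τ hi (bitP strict M e true x) (j * bl s + 1) (j * bl s + 1)
      (btv strict M c0 w (j * bl s) x) := by
  have hc := (cod M e x).isLt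
  have h1 : bitP strict M e true x = chk (bitR M) (cod M e x).val := by
    unfold bitP
    rw [if_pos rfl]
  rw [h1]
  refine (decides_chk _ (by omega) (by omega)).congr ?_
  obtain ⟨a, r, _, hτ, hb, _⟩ := hA.2 (j * bl s + (cod M e x).val) (by omega)
  have h2 : j * bl s + 1 + (cod M e x).val = j * bl s + (cod M e x).val + 1 := by omega
  have h3 : (j * bl s + (cod M e x).val) % bl s = (cod M e x).val := by
    rw [Nat.mul_add_mod_self_right, Nat.mod_eq_of_lt hc]
  have h4 : (j * bl s + (cod M e x).val) / bl s = j := by
    rw [Nat.mul_comm, Nat.mul_add_div (by omega), Nat.div_eq_of_lt hc, Nat.add_zero]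
  rw [h2, hτ]
  show r.1 = true ↔ _
  rw [hb, h3, h4]
  constructor
  · intro h
    have h5 := h (cod M e x) rfl
    unfold btw at h5
    rw [Equiv.symm_apply_apply] at h5
    exact h5
  · intro h k hk
    have : k = cod M e x := Fin.ext hk
    subst this
    unfold btw
    rw [Equiv.symm_apply_apply]
    exact h

omit [Finite A] in
/-- The tape is good for the block that starts after `m` cells. -/
theorem tapeOK {w : List A} {τ : ℕ → Tp M} {t hi m n' lp : ℕ} {src : Bool} {c : M.W}
    (hA : An strict M c0 e w τ t) (ht : t ≤ hi) (hn : m + n' ≤ t)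
    (hbit : ∀ x, Decides τ hi (bitP strict M e src x) (m + 1) (m + 1) (btv strict M c0 w m x))
    (hlp : m + n' < t ∨ (m + lp = t ∧ (1 ≤ lp → c = con strict M c0 w (m + (lp - 1))))
      ) (hlp' : m + n' < t → lp ≤ n' → lp = 0) : TapeOK strict M c0 e w τ hi m n' src lp c where
  bit := hbit
  lt := by
    intro i hi'
    obtain ⟨a, r, h1, h2, _⟩ := hA.2 (m + i) (by omega)
    exact ⟨a, r, h1, h2⟩
  con := by
    intro i hi' hne
    have hlt : m + i + 1 < t := by
      rcases hlp with h | ⟨h, _⟩ <;> omega
    refine ⟨by omega, ?_⟩
    obtain ⟨a, r, h1, h2, _, h3⟩ := hA.2 (m + i + 1) hlt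
    refine ⟨a, r, h2, ?_⟩
    have h4 := h3 (by omega)
    have h5 : m + i + 1 - 1 = m + i := by omega
    rw [h5] at h4
    exact h4
  ov := by
    intro h1 h2
    rcases hlp with h | ⟨h, h3⟩
    · have := hlp' h h2
      omega
    · exact h3 h1
  hi := by omega

theorem decides_lm_true {W : Type} {τ : ℕ → Sym W} {hi : ℕ} (h0 : τ 0 = .lm) :
    Decides τ hi (act lmS lmS) 0 1 True := by
  refine ⟨true, run_act _ _ _ (Nat.zero_le _) ?_ ?_ ?_, by simp⟩
  · rw [h0]; rfl
  · intro _; rfl
  · rw [h0]; intro h; exact absurd h (by simp [lmS])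

theorem decides_lm_false {W : Type} {τ : ℕ → Sym W} {hi x : ℕ} {a : W}
    (h0 : τ (x + 1) = .sym a) (hx : x + 1 ≤ hi) :
    Decides τ hi (act lmS lmS) (x + 1) x False := by
  refine ⟨false, run_act _ _ _ hx ?_ ?_ ?_, by simp⟩
  · rw [h0]; rfl
  · rw [h0]; intro h; exact absurd h (by simp [lmS])
  · intro _; rfl

theorem run_main (hW : WriteDet strict M)
    (hs : 1 ≤ s) {K : ℕ} (hK : Nat.card (Vx M s) ≤ 2 ^ K) {w : List A} {τ : ℕ → Tp M}
    {t j : ℕ} {k : Fin (bl s)} (hA : An strict M c0 e w τ t) (ht1 : 1 ≤ t)
    (htw : t ≤ w.length) (hy : t = j * bl s + k.val) :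
    ∃ r, Run τ t (mainP strict M c0 e K k) t r (t + 1) ∧ (r.1 = true ↔
      btw strict M c0 e w (j * bl s) k) ∧ r.2 = con strict M c0 w (t - 1) := by
  let _ : Inhabited (Bool × M.W) := ⟨(false, c0)⟩
  have hB := two_le_bl hs
  have hk := k.isLt
  have hct : ∀ c, Wr strict M w (t - 1) c → c = con strict M c0 w (t - 1) := fun c hc =>
    (con_of_wr hW (by omega) hc).symm
  have hcd : (∀ c ∈ lW M, ¬ Wr strict M w (t - 1) c) → con strict M c0 w (t - 1) = c0 := by
    intro h
    apply con_eq_default
    rintro ⟨c, hc⟩
    exact h c (mem_lW M c) hc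
  unfold mainP
  rcases Nat.eq_zero_or_pos j with hj | hj
  · subst hj
    have hz : 0 * bl s = 0 := Nat.zero_mul _
    have hyk : t = k.val := by omega
    refine ⟨(ini strict M ((cod M e).symm k), con strict M c0 w (t - 1)), ?_, ?_, rfl⟩
    · have hrun : Run τ t (mvs false k.val (ite (act lmS lmS)
          (withC (ctP strict M e K false (k.val - 1))
            (fun c => mvs true k.val (ret (ini strict M ((cod M e).symm k), c))) c0 (lW M))
          (mvs false (bl s - 2) (withC (ctP strict M e K true (bl s + k.val - 1))
            (fun c => ite (qry strict M e K (bl s + k.val) c k)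
              (mvs true (bl s + k.val) (ret (true, c)))
              (mvs true (bl s + k.val) (ret (false, c)))) c0 (lW M))))) (0 + k.val)
          (ini strict M ((cod M e).symm k), con strict M c0 w (t - 1)) (t + 1) := by
        apply run_mvs_left (by omega)
        obtain ⟨b, hb, hb'⟩ := decides_lm_true (hi := t) hA.1
        have hbt : b = true := hb'.2 trivial
        subst hbt
        refine Run.iteT _ _ _ 0 1 (t + 1) _ hb ?_
        have h1 : (0 : ℕ) + 1 = 1 := rfl
        refine run_withC (P := fun c => Wr strict M w (t - 1) c) (fun c => ?_) hct ?_ (lW M) hcd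
        · have h2 := decides_ctP (c0 := c0) (e := e) (τ := τ) (hi := t) (m := 0) (n' := k.val - 1)
            (c := c) (src := false) (w := w) hW hK ?_ (by omega) ?_ (by omega)
          · have h3 : 0 + (k.val - 1) = t - 1 := by omega
            rw [h3] at h2
            exact h2
          · refine tapeOK hA le_rfl (by omega) ?_ (Or.inl (by omega)) (fun _ _ => rfl)
            intro x
            have h3 : bitP strict M e false x = ret (ini strict M x) := by
              unfold bitP
              simp
            rw [h3]
            exact (decides_ret _ _ _ _).congr (ini_iff strict M c0 w x)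
          · obtain ⟨a, r, h3, h4, _⟩ := hA.2 (0 + (k.val - 1)) (by omega)
            exact ⟨a, r, h3, h4⟩
        · refine run_mvs_right (by omega) ?_
          have h2 : 1 + k.val = t + 1 := by omega
          rw [h2]
          exact Run.ret _ _
      rw [Nat.zero_add, ← hyk] at hrun
      rw [← hyk]
      exact hrun
    · rw [hz]
      exact ini_iff strict M c0 w _
  · obtain ⟨j', rfl⟩ : ∃ j', j = j' + 1 := ⟨j - 1, by omega⟩
    have hz : (j' + 1) * bl s = j' * bl s + bl s := by ring
    have hpos : (j' + 1) * bl s = (j' * bl s + bl s - 1) + 1 := by omega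
    obtain ⟨a, r, ha, hτ, -⟩ := hA.2 (j' * bl s + bl s - 1) (by omega)
    have hbits := fun x => bit_tape (hi := t) hA (j := j') (by omega) le_rfl x
    have hq : Decides τ t (qry strict M e K (bl s + k.val) (con strict M c0 w (t - 1)) k)
        (j' * bl s + 1) (j' * bl s + 1) (btw strict M c0 e w (j' * bl s + bl s) k) := by
      refine decides_qry hW hK (tapeOK hA le_rfl (by omega) hbits (Or.inr ⟨by omega, ?_⟩)
        (fun _ _ => by omega)) k
      intro _
      congr 1
      omega
    obtain ⟨b, hb, hb'⟩ := hq
    refine ⟨(b, con strict M c0 w (t - 1)), ?_, ?_, rfl⟩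
    · have hrun : Run τ t (mvs false k.val (ite (act lmS lmS)
          (withC (ctP strict M e K false (k.val - 1))
            (fun c => mvs true k.val (ret (ini strict M ((cod M e).symm k), c))) c0 (lW M))
          (mvs false (bl s - 2) (withC (ctP strict M e K true (bl s + k.val - 1))
            (fun c => ite (qry strict M e K (bl s + k.val) c k)
              (mvs true (bl s + k.val) (ret (true, c)))
              (mvs true (bl s + k.val) (ret (false, c)))) c0 (lW M)))))
          ((j' * bl s + bl s - 1) + 1 + k.val) (b, con strict M c0 w (t - 1)) (t + 1) := by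
        apply run_mvs_left (by omega)
        obtain ⟨b1, hb1, hb1'⟩ := decides_lm_false (hi := t) hτ (by omega)
        have hbt : b1 = false := by
          cases b1
          · rfl
          · exact absurd (hb1'.1 rfl) (by simp)
        subst hbt
        refine Run.iteF _ _ _ _ (j' * bl s + bl s - 1) (t + 1) _ hb1 ?_
        have h1 : j' * bl s + bl s - 1 = j' * bl s + 1 + (bl s - 2) := by omega
        rw [h1]
        apply run_mvs_left (by omega)
        refine run_withC (P := fun c => Wr strict M w (t - 1) c) (fun c => ?_) hct ?_ (lW M) hcd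
        · have h2 := decides_ctP (c0 := c0) (e := e) (τ := τ) (hi := t) (m := j' * bl s)
            (n' := bl s + k.val - 1) (c := c) (src := true) (w := w) hW hK ?_ (by omega) ?_
            (by omega)
          · have h3 : j' * bl s + (bl s + k.val - 1) = t - 1 := by omega
            rw [h3] at h2
            exact h2
          · exact tapeOK hA le_rfl (by omega) hbits (Or.inl (by omega)) (fun _ _ => rfl)
          · obtain ⟨a, r, h3, h4, _⟩ := hA.2 (j' * bl s + (bl s + k.val - 1)) (by omega)
            exact ⟨a, r, h3, h4⟩
        · have h2 : t + 1 = j' * bl s + 1 + (bl s + k.val) := by omega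
          cases b
          · refine Run.iteF _ _ _ _ (j' * bl s + 1) _ _ hb ?_
            refine run_mvs_right (by omega) ?_
            rw [h2]
            exact Run.ret _ _
          · refine Run.iteT _ _ _ _ (j' * bl s + 1) _ _ hb ?_
            refine run_mvs_right (by omega) ?_
            rw [h2]
            exact Run.ret _ _
      have h3 : (j' * bl s + bl s - 1) + 1 + k.val = t := by omega
      rw [h3] at hrun
      exact hrun
    · rw [hz]
      exact hb'

omit [Finite A] in
theorem decides_withC {τ : ℕ → Tp M} {hi x y t : ℕ} {w : List A} {ct : M.W → Cmd (Tp M) Bool}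
    {body : M.W → Cmd (Tp M) Bool} {φ : Prop} (hW : WriteDet strict M) (ht : 1 ≤ t)
    (htw : t ≤ w.length)
    (hct : ∀ c, Decides τ hi (ct c) x x (Wr strict M w (t - 1) c))
    (hbody : Decides τ hi (body (con strict M c0 w (t - 1))) x y φ) :
    Decides τ hi (withC ct body c0 (lW M)) x y φ := by
  obtain ⟨b, hb, hb'⟩ := hbody
  refine ⟨b, run_withC (P := fun c => Wr strict M w (t - 1) c) hct (fun c hc => ?_) hb (lW M)
    ?_, hb'⟩
  · exact (con_of_wr hW (by omega) hc).symm
  · intro h
    apply con_eq_default
    rintro ⟨c, hc⟩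
    exact h c (mem_lW M c) hc

theorem decides_fin (hW : WriteDet strict M)
    (hs : 1 ≤ s) {K : ℕ} (hK : Nat.card (Vx M s) ≤ 2 ^ K) {w : List A} {τ : ℕ → Tp M}
    {hi j t : ℕ} {k : Fin (bl s)} (hA : An strict M c0 e w τ t) (htw : t = w.length)
    (hy : t = j * bl s + k.val) (hhi : t ≤ hi) :
    Decides τ hi (finP strict M c0 e K k) t (t + 1) (w ∈ M.language strict) := by
  have hB := two_le_bl hs
  have hk := k.isLt
  have hgoal : Decides τ hi (finP strict M c0 e K k) (j * bl s + k.val) (j * bl s + k.val + 1)
        (w ∈ M.language strict) := by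
    unfold finP
    apply decides_mvs_left (by omega)
    rcases Nat.eq_zero_or_pos j with hj | hj
    · subst hj
      have hz : 0 * bl s = 0 := Nat.zero_mul _
      simp only [hz, Nat.zero_add] at hy ⊢
      have hbit0 : ∀ x, Decides τ hi (bitP strict M e false x) (0 + 1) (0 + 1)
          (btv strict M c0 w 0 x) := by
        intro x
        have h3 : bitP strict M e false x = ret (ini strict M x) := by
          unfold bitP
          simp
        rw [h3]
        exact (decides_ret _ _ _ _).congr (ini_iff strict M c0 w x)
      refine (decides_ite (φ := True) (ψ := w ∈ M.language strict) (χ := False)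
        (decides_lm_true hA.1) (fun _ => ?_) (fun h => absurd trivial h)).congr (by simp)
      by_cases hk0 : k.val = 0
      · rw [if_pos hk0, hk0]
        have h2 := decides_acP (c0 := c0) (e := e) (τ := τ) (hi := hi) (m := 0) (n' := 0)
          (lp := 0) (c := c0) (src := false) (w := w) hW hK
          (tapeOK hA hhi (by omega) hbit0 (Or.inr ⟨by omega, fun h => absurd h (by simp)⟩)
            (fun _ _ => rfl)) (by omega) (by omega)
        exact h2
      · rw [if_neg hk0]
        refine decides_withC (c0 := c0) (w := w) (t := t) hW (by omega) (by omega) (fun c => ?_) ?_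
        · have h2 := decides_ctP (c0 := c0) (e := e) (τ := τ) (hi := hi) (m := 0)
            (n' := k.val - 1) (c := c) (src := false) (w := w) hW hK
            (tapeOK hA hhi (by omega) hbit0 (Or.inl (by omega)) (fun _ _ => rfl))
            (by omega) ?_ (by omega)
          · have h3 : 0 + (k.val - 1) = t - 1 := by omega
            rw [h3] at h2
            exact h2
          · obtain ⟨a, r, h3, h4, _⟩ := hA.2 (0 + (k.val - 1)) (by omega)
            exact ⟨a, r, h3, h4⟩
        · have h1 : k.val + 1 = 1 + k.val := by omega
          rw [h1]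
          apply decides_thenRight _ (by omega)
          refine decides_acP (c0 := c0) (e := e) (m := 0) hW hK
            (tapeOK hA hhi (by omega) hbit0 (Or.inr ⟨by omega, fun _ => ?_⟩)
            (fun _ _ => by omega)) (by omega) (by omega)
          congr 1
          omega
    · obtain ⟨j', rfl⟩ : ∃ j', j = j' + 1 := ⟨j - 1, by omega⟩
      have hz : (j' + 1) * bl s = j' * bl s + bl s := by ring
      have hpos : (j' + 1) * bl s = (j' * bl s + bl s - 1) + 1 := by omega
      obtain ⟨a, r, ha, hτ, -⟩ := hA.2 (j' * bl s + bl s - 1) (by omega)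
      have hbits := fun x => bit_tape (hi := hi) hA (j := j') (by omega) hhi x
      refine (decides_ite (φ := False) (ψ := True) (χ := w ∈ M.language strict)
        (y := j' * bl s + bl s - 1) ?_ (fun h => absurd h (by simp))
        (fun _ => ?_)).congr (by tauto)
      · rw [hpos]
        exact decides_lm_false hτ (by omega)
      · have h1 : j' * bl s + bl s - 1 = j' * bl s + 1 + (bl s - 2) := by omega
        rw [h1]
        apply decides_mvs_left (by omega)
        have h2 : (j' + 1) * bl s + k.val + 1 = j' * bl s + 1 + (bl s + k.val) := by omega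
        rw [h2]
        refine decides_withC (c0 := c0) (w := w) (t := t) hW (by omega) (by omega) (fun c => ?_) ?_
        · have h2 := decides_ctP (c0 := c0) (e := e) (τ := τ) (hi := hi) (m := j' * bl s)
            (n' := bl s + k.val - 1) (c := c) (src := true) (w := w) hW hK
            (tapeOK hA hhi (by omega) hbits (Or.inl (by omega)) (fun _ _ => rfl))
            (by omega) ?_ (by omega)
          · have h3 : j' * bl s + (bl s + k.val - 1) = t - 1 := by omega
            rw [h3] at h2
            exact h2
          · obtain ⟨a, r, h3, h4, _⟩ := hA.2 (j' * bl s + (bl s + k.val - 1)) (by omega)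
            exact ⟨a, r, h3, h4⟩
        · apply decides_thenRight _ (by omega)
          refine decides_acP (c0 := c0) (e := e) (m := j' * bl s) hW hK
            (tapeOK hA hhi (by omega) hbits (Or.inr ⟨by omega, fun _ => ?_⟩)
            (fun _ _ => by omega)) (by omega) (by omega)
          congr 1
          omega
  rw [← hy] at hgoal
  exact hgoal

/-- The deterministic machine has the same language. -/
theorem plan_language (hW : WriteDet strict M)
    (hs : 1 ≤ s) {K : ℕ} (hK : Nat.card (Vx M s) ≤ 2 ^ K) :
    haveI : Finite (Bool × M.W) := by have := M.finW; infer_instance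
    haveI : Inhabited (Bool × M.W) := ⟨(false, c0)⟩
    (plan strict M c0 e hs K).mach.language strict = M.language strict := by
  have hfin : Finite (Bool × M.W) := by have := M.finW; infer_instance
  let _ : Inhabited (Bool × M.W) := ⟨(false, c0)⟩
  have hB := two_le_bl hs
  ext w
  refine Plan.mem_mach_language (P := plan strict M c0 e hs K) (an strict M c0 e w) w _ ?_ ?_ ?_
  · refine ⟨?_, fun h => absurd h (by simp)⟩
    refine (ini_iff strict M c0 w _).trans ?_
    constructor
    · intro h k hk
      have hk0 : k = ⟨0, by omega⟩ := Fin.ext (by rw [hk]; exact Nat.zero_mod _)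
      rw [hk0, Nat.zero_div, Nat.zero_mul]
      exact h
    · intro h
      have h1 := h ⟨0, by omega⟩ (Nat.zero_mod _).symm
      rw [Nat.zero_div, Nat.zero_mul] at h1
      exact h1
  · intro τ t ht1 htw hA
    obtain ⟨r, h1, h2, h3⟩ := run_main (c0 := c0) (e := e) hW hs hK (j := t / bl s)
      (k := (plan strict M c0 e hs K).ix t) hA ht1 htw (by
        show t = t / bl s * bl s + t % bl s
        rw [Nat.mul_comm, Nat.div_add_mod])
    refine ⟨r, h1, ?_, fun _ => h3⟩
    rw [h2]
    constructor
    · intro h k hk
      have : (plan strict M c0 e hs K).ix t = k := Fin.ext hk.symm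
      rw [this] at h
      exact h
    · intro h
      exact h _ rfl
  · intro τ hA
    exact decides_fin (c0 := c0) (e := e) hW hs hK (j := w.length / bl s)
      (k := (plan strict M c0 e hs K).ix w.length) hA rfl (by
        show w.length = w.length / bl s * bl s + w.length % bl s
        rw [Nat.mul_comm, Nat.div_add_mod]) (by omega)

end Pool.Agent.TH588.WD
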