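import Mathlib
import Pool.Agent.TH588.LQ.Cost
import Pool.Agent.TH588.WD.Sim

/-!
# The size of the deterministic simulation
-/

set_option autoImplicit false

namespace Pool.Agent.TH588.WD

open Relation Cmd
open Pool.Agent.H630R2.LA (Sym LimAut card_Sym)
open Pool.Agent.TH588.LQ (bl Bits cod ini Vx val mkv lV length_lV lQ length_lQ nn two_le_bl card_Q)

variable {A : Type} [Finite A] {strict : Prop} {M : LimAut A} {c0 : M.W} {s : ℕ}
  {e : M.Q ≃ Fin s}

/-- The bound for the number of control states of the reachability program. -/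
noncomputable def XX (M : LimAut A) (s K : ℕ) : ℕ :=
  (2 * Nat.card (Vx M s)) ^ K * (6 * bl s + Nat.card (Tp M) + 3)

omit [Finite A] in
theorem cnt_bitP (src : Bool) (x : Bits M) : (bitP strict M e src x).cnt ≤ 3 * bl s := by
  have h := (cod M e x).isLt
  unfold bitP
  split
  · rw [cnt_chk]
    omega
  · exact Nat.zero_le _

theorem cnt_edP {src : Bool} {n' lp : ℕ} {c : M.W} {fn : Bool} (hn : n' ≤ 2 * bl s)
    (u v : Vx M s) :
    (edP strict M e src n' fn lp c u v).cnt ≤ 6 * bl s + Nat.card (Tp M) + 3 := by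
  unfold edP
  split
  · split
    · have := cnt_bitP (strict := strict) (e := e) src (Sum.inl (u.1, v.1))
      omega
    · exact Nat.zero_le _
  · split
    · split
      · rw [cnt_chk]
        omega
      · rw [cnt_chk2]
        omega
    · exact Nat.zero_le _

theorem cnt_rea {K : ℕ} {src : Bool} {n' lp : ℕ} {c : M.W} {fn : Bool} (hn : n' ≤ 2 * bl s)
    (u v : Vx M s) : (rea strict M e K src n' fn lp c u v).cnt ≤ XX M s K := by
  classical
  unfold rea XX
  have h := cnt_sav (l := lV M (s := s)) (ed := edP strict M e src n' fn lp c)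
    (c := 6 * bl s + Nat.card (Tp M) + 3) (fun u v => cnt_edP hn u v) K u v
  rw [length_lV] at h
  exact h

theorem XX_pos (hs : 1 ≤ s) (e : M.Q ≃ Fin s) (K : ℕ) :
    6 * bl s + Nat.card (Tp M) + 3 ≤ XX M s K := by
  unfold XX
  have h1 : 1 ≤ Nat.card (Vx M s) := by
    rw [Nat.card_prod, card_Q e, Nat.card_prod]
    simp only [Nat.card_eq_fintype_card, Fintype.card_fin]
    have : 1 ≤ (2 * bl s + 2) * (2 * bl s + 2) := by nlinarith [Nat.zero_le (bl s)]
    nlinarith
  exact Nat.le_mul_of_pos_left _ (Nat.pow_pos (by omega))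

theorem cnt_enP (hs : 1 ≤ s) {K : ℕ} {src : Bool} {n' lp : ℕ} {c : M.W} {fn : Bool}
    (hn : n' ≤ 2 * bl s) (q : M.Q) :
    (enP strict M e K src n' fn lp c q).cnt ≤ s * (2 * XX M s K) := by
  have hX := XX_pos (M := M) hs e K
  unfold enP
  refine (cnt_orL _ _ (2 * XX M s K) ?_).trans ?_
  · intro q0
    have h1 := cnt_bitP (strict := strict) (e := e) src (Sum.inr q0)
    have h2 := cnt_rea (strict := strict) (e := e) (K := K) (src := src) (lp := lp) (c := c)
      (fn := fn) hn (mkv M q0 1 0) (mkv M q (nn n' fn + 1) (nn n' fn))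
    simp only [cnt]
    omega
  · rw [length_lQ, card_Q e]

theorem cnt_qry (hs : 1 ≤ s) {K lp : ℕ} {c : M.W} (k : Fin (bl s)) :
    (qry strict M e K lp c k).cnt ≤ s * (2 * XX M s K) := by
  have hX := XX_pos (M := M) hs e K
  unfold qry
  split
  · refine (cnt_rea (by omega) _ _).trans ?_
    have : 1 * XX M s K ≤ s * (2 * XX M s K) := Nat.mul_le_mul hs (by omega)
    omega
  · exact cnt_enP hs (by omega) _

theorem cnt_acP (hs : 1 ≤ s) {K : ℕ} {src : Bool} {n' lp : ℕ} {c : M.W} (hn : n' ≤ 2 * bl s) :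
    (acP strict M e K src n' lp c).cnt ≤ s * (s * (2 * XX M s K)) := by
  classical
  unfold acP
  refine (cnt_orL _ _ (s * (2 * XX M s K)) ?_).trans ?_
  · intro f
    split
    · exact cnt_enP hs hn f
    · exact Nat.zero_le _
  · rw [length_lQ, card_Q e]

theorem cnt_ctP (hs : 1 ≤ s) {K : ℕ} {src : Bool} {n' : ℕ} {c : M.W} (hn : n' ≤ 2 * bl s) :
    (ctP strict M e K src n' c).cnt ≤ s * (s * (3 * XX M s K)) := by
  classical
  have hX := XX_pos (M := M) hs e K
  unfold ctP
  refine (cnt_orL _ _ (s * (3 * XX M s K)) ?_).trans ?_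
  · intro q
    have h1 := cnt_enP (strict := strict) (e := e) hs (K := K) (src := src) (lp := 0) (c := c)
      (fn := false) hn q
    have h2 : 1 * XX M s K ≤ s * XX M s K := Nat.mul_le_mul_right _ hs
    have h3 : s * (3 * XX M s K) = s * (2 * XX M s K) + s * XX M s K := by ring
    simp only [cnt, cnt_chk]
    omega
  · rw [length_lQ, card_Q e]

theorem arithS (s X : ℕ) (hs : 1 ≤ s) : X ≤ s * (s * X) ∧ s * (2 * X) ≤ 2 * (s * (s * X)) ∧
    s * (s * (2 * X)) = 2 * (s * (s * X)) ∧ s * (s * (3 * X)) = 3 * (s * (s * X)) := by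
  have h1 : X ≤ s * X := Nat.le_mul_of_pos_left _ hs
  have h2 : s * X ≤ s * (s * X) := Nat.le_mul_of_pos_left _ hs
  refine ⟨h1.trans h2, ?_, by ring, by ring⟩
  have h3 : s * (2 * X) = 2 * (s * X) := by ring
  omega

theorem cnt_mainP (hs : 1 ≤ s) {K : ℕ} (k : Fin (bl s)) :
    (mainP strict M c0 e K k).cnt + 1 ≤ 30 * (Nat.card M.W * (s * (s * XX M s K))) := by
  have hW1 : 1 ≤ Nat.card M.W := by
    have := M.finW
    have : Nonempty M.W := ⟨c0⟩
    exact Nat.card_pos
  have hB := two_le_bl hs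
  have hX := XX_pos (M := M) hs e K
  obtain ⟨a1, a2, a3, a4⟩ := arithS s (XX M s K) hs
  have hk := k.isLt
  set Y := s * (s * XX M s K) with hY
  let _ : Inhabited (Bool × M.W) := ⟨(false, c0)⟩
  have h1 := cnt_withC (W := M.W) (S := Tp M) (R := Bool × M.W) (C1 := 3 * Y) (C2 := Y)
    (c0 := c0) (ct := ctP strict M e K false (k.val - 1))
    (body := fun c => mvs true k.val (ret (ini strict M ((cod M e).symm k), c)))
    (fun c => by
      have := cnt_ctP (strict := strict) (e := e) hs (K := K) (src := false)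
        (n' := k.val - 1) (c := c) (by omega)
      omega)
    (fun c => by
      simp only [cnt_mvs, cnt]
      omega) (lW M)
  have h2 := cnt_withC (W := M.W) (S := Tp M) (R := Bool × M.W) (C1 := 3 * Y) (C2 := 4 * Y)
    (c0 := c0) (ct := ctP strict M e K true (bl s + k.val - 1))
    (body := fun c => ite (qry strict M e K (bl s + k.val) c k)
        (mvs true (bl s + k.val) (ret (true, c))) (mvs true (bl s + k.val) (ret (false, c))))
    (fun c => by
      have := cnt_ctP (strict := strict) (e := e) hs (K := K) (src := true)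
        (n' := bl s + k.val - 1) (c := c) (by omega)
      omega)
    (fun c => by
      have := cnt_qry (strict := strict) (e := e) hs (K := K) (lp := bl s + k.val) (c := c) k
      simp only [cnt_mvs, cnt]
      omega) (lW M)
  rw [length_lW] at h1 h2
  have h3 : Nat.card M.W * (3 * Y + Y) = 4 * (Nat.card M.W * Y) := by ring
  have h4 : Nat.card M.W * (3 * Y + 4 * Y) = 7 * (Nat.card M.W * Y) := by ring
  have h5 : Y ≤ Nat.card M.W * Y := Nat.le_mul_of_pos_left _ hW1
  unfold mainP
  simp only [cnt_mvs, cnt, cnt_act] at h1 h2 ⊢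
  omega

theorem cnt_finP (hs : 1 ≤ s) {K : ℕ} (k : Fin (bl s)) :
    (finP strict M c0 e K k).cnt ≤ 30 * (Nat.card M.W * (s * (s * XX M s K))) := by
  have hW1 : 1 ≤ Nat.card M.W := by
    have := M.finW
    have : Nonempty M.W := ⟨c0⟩
    exact Nat.card_pos
  have hB := two_le_bl hs
  have hX := XX_pos (M := M) hs e K
  obtain ⟨a1, a2, a3, a4⟩ := arithS s (XX M s K) hs
  have hk := k.isLt
  set Y := s * (s * XX M s K) with hY
  have h1 := cnt_withC (W := M.W) (S := Tp M) (R := Bool) (C1 := 3 * Y) (C2 := 4 * Y)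
    (c0 := c0) (ct := ctP strict M e K false (k.val - 1))
    (body := fun c => thenRight (acP strict M e K false k.val k.val c) k.val)
    (fun c => by
      have := cnt_ctP (strict := strict) (e := e) hs (K := K) (src := false)
        (n' := k.val - 1) (c := c) (by omega)
      omega)
    (fun c => by
      have := cnt_acP (strict := strict) (e := e) hs (K := K) (src := false) (n' := k.val)
        (lp := k.val) (c := c) (by omega)
      simp only [cnt_thenRight]
      omega) (lW M)
  have h2 := cnt_withC (W := M.W) (S := Tp M) (R := Bool) (C1 := 3 * Y) (C2 := 4 * Y)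
    (c0 := c0) (ct := ctP strict M e K true (bl s + k.val - 1))
    (body := fun c => thenRight (acP strict M e K true (bl s + k.val) (bl s + k.val) c)
        (bl s + k.val))
    (fun c => by
      have := cnt_ctP (strict := strict) (e := e) hs (K := K) (src := true)
        (n' := bl s + k.val - 1) (c := c) (by omega)
      omega)
    (fun c => by
      have := cnt_acP (strict := strict) (e := e) hs (K := K) (src := true) (n' := bl s + k.val)
        (lp := bl s + k.val) (c := c) (by omega)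
      simp only [cnt_thenRight]
      omega) (lW M)
  rw [length_lW] at h1 h2
  have h4 : Nat.card M.W * (3 * Y + 4 * Y) = 7 * (Nat.card M.W * Y) := by ring
  have h5 : Y ≤ Nat.card M.W * Y := Nat.le_mul_of_pos_left _ hW1
  have h6 := cnt_acP (strict := strict) (e := e) hs (K := K) (src := false) (n' := 0)
        (lp := 0) (c := c0) (by omega)
  have h7 : (if k.val = 0 then acP strict M e K false 0 0 c0 else
      withC (ctP strict M e K false (k.val - 1))
        (fun c => thenRight (acP strict M e K false k.val k.val c) k.val) c0 (lW M)).cnt ≤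
      11 * (Nat.card M.W * Y) := by
    split <;> omega
  unfold finP
  simp only [cnt_mvs, cnt, cnt_act] at h2 h7 ⊢
  omega

/-- **Quasi-polynomial determinization** of automata without choice what to write. -/
theorem exists_small_W (M : LimAut A) (strict : Prop) (hW : WriteDet strict M) :
    ∃ M' : LimAut A, M'.Deterministic ∧ M'.language strict = M.language strict ∧
      M'.size ≤ 2 ^ (170 * (Nat.log 2 M.size + 1) ^ 2) := by
  have hfin := M.finQ
  have hfinW := M.finW
  have hq : Nat.card M.Q + Nat.card A + Nat.card M.W + 3 ≤ M.size := by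
    unfold LimAut.size
    omega
  have hq1 : 1 ≤ Nat.card M.Q := by
    have : Nonempty M.Q := ⟨M.q0⟩
    exact Nat.card_pos
  obtain ⟨G, hG⟩ : ∃ G, G = Nat.log 2 M.size + 1 := ⟨_, rfl⟩
  have hG1 : 1 ≤ G := by omega
  have hGn : M.size < 2 ^ G := by
    rw [hG]
    exact Nat.lt_pow_succ_log_self (by omega) _
  rcases isEmpty_or_nonempty M.W with hemp | ⟨⟨c0⟩⟩
  · -- there are no letters
    have hA : IsEmpty A := ⟨fun a => hemp.elim (M.inp a)⟩
    obtain ⟨M', h1, h2, -, -, h3⟩ := Pool.Agent.TH588.LQ.small_of_letterWriting M strict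
      (fun a => hA.elim a)
    refine ⟨M', h1, h2, h3.trans ?_⟩
    apply Nat.pow_le_pow_right (by omega)
    exact Nat.mul_le_mul_right _ (by omega)
  obtain ⟨s, hs⟩ : ∃ s, s = Nat.card M.Q := ⟨_, rfl⟩
  have e : M.Q ≃ Fin s := by rw [hs]; exact Finite.equivFin M.Q
  have hs1 : 1 ≤ s := by omega
  have hsg : s ≤ 2 ^ G := by omega
  have hwg : Nat.card M.W ≤ 2 ^ G := by omega
  have hag : Nat.card A ≤ 2 ^ G := by omega
  have hfinR : Finite (Bool × M.W) := inferInstance
  let _ : Inhabited (Bool × M.W) := ⟨(false, c0)⟩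
  -- powers
  have p1 : 2 ^ (2 * G) = 2 ^ G * 2 ^ G := by rw [← pow_add]; congr 1; ring
  have p2 : 2 ^ G ≤ 2 ^ (2 * G) := Nat.pow_le_pow_right (by omega) (by omega)
  have p3 : 4 ≤ 2 ^ (2 * G) := by
    calc 4 = 2 ^ 2 := by norm_num
      _ ≤ 2 ^ (2 * G) := Nat.pow_le_pow_right (by omega) (by omega)
  have hss : s * s ≤ 2 ^ (2 * G) := by
    rw [p1]
    exact Nat.mul_le_mul hsg hsg
  have hB2 := two_le_bl hs1
  have hB : bl s ≤ 2 ^ (2 * G + 1) := by
    have h1 : 2 ^ (2 * G + 1) = 2 ^ (2 * G) + 2 ^ (2 * G) := by ring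
    unfold bl
    omega
  have hC : 2 * bl s + 2 ≤ 2 ^ (2 * G + 3) := by
    have h1 : 2 ^ (2 * G + 3) = 4 * 2 ^ (2 * G + 1) := by ring
    omega
  have hTp : Nat.card (Tp M) = Nat.card (WR A (Bool × M.W)) + 2 := card_Sym _
  have hWR : Nat.card (WR A (Bool × M.W)) = Nat.card A * (2 * Nat.card M.W + 1) + 1 := by
    rw [card_WR, Nat.card_prod]
    simp
  have hT : Nat.card (Tp M) ≤ 2 ^ (2 * G + 3) := by
    rw [hTp, hWR]
    have h1 : 2 ^ (2 * G + 3) = 8 * 2 ^ (2 * G) := by ring
    have h2 : Nat.card A * (2 * Nat.card M.W + 1) ≤ 2 ^ G * (2 * 2 ^ G + 1) :=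
      Nat.mul_le_mul hag (by omega)
    have h3 : 2 ^ G * (2 * 2 ^ G + 1) = 2 * 2 ^ (2 * G) + 2 ^ G := by rw [p1]; ring
    omega
  have hE : 6 * bl s + Nat.card (Tp M) + 3 ≤ 2 ^ (2 * G + 5) := by
    have h1 : 2 ^ (2 * G + 5) = 16 * 2 ^ (2 * G + 1) := by ring
    have h2 : 2 ^ (2 * G + 3) = 4 * 2 ^ (2 * G + 1) := by ring
    omega
  have hV : Nat.card (Vx M s) ≤ 2 ^ (5 * G + 6) := by
    rw [Nat.card_prod, card_Q e, Nat.card_prod]
    simp only [Nat.card_eq_fintype_card, Fintype.card_fin]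
    calc s * ((2 * bl s + 2) * (2 * bl s + 2))
        ≤ 2 ^ G * (2 ^ (2 * G + 3) * 2 ^ (2 * G + 3)) :=
          Nat.mul_le_mul hsg (Nat.mul_le_mul hC hC)
      _ = 2 ^ (5 * G + 6) := by
          rw [← pow_add, ← pow_add]; congr 1; ring
  have hX : XX M s (5 * G + 6) ≤ 2 ^ ((5 * G + 7) * (5 * G + 6) + (2 * G + 5)) := by
    unfold XX
    have h1 : 2 * Nat.card (Vx M s) ≤ 2 ^ (5 * G + 7) := by
      have h2 : 2 ^ (5 * G + 7) = 2 * 2 ^ (5 * G + 6) := by ring
      omega
    calc (2 * Nat.card (Vx M s)) ^ (5 * G + 6) * (6 * bl s + Nat.card (Tp M) + 3)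
        ≤ (2 ^ (5 * G + 7)) ^ (5 * G + 6) * 2 ^ (2 * G + 5) :=
          Nat.mul_le_mul (Nat.pow_le_pow_left h1 _) hE
      _ = 2 ^ ((5 * G + 7) * (5 * G + 6) + (2 * G + 5)) := by
          rw [← pow_mul, ← pow_add]
  have hXpos : 1 ≤ XX M s (5 * G + 6) := by
    have := XX_pos (M := M) hs1 e (5 * G + 6)
    omega
  have hW1 : 1 ≤ Nat.card M.W := by
    have : Nonempty M.W := ⟨c0⟩
    exact Nat.card_pos
  obtain ⟨a1, a2, a3, a4⟩ := arithS s (XX M s (5 * G + 6)) hs1
  have hcard := Plan.card_QS_le (P := plan strict M c0 e hs1 (5 * G + 6))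
    (Z := 30 * (Nat.card M.W * (s * (s * XX M s (5 * G + 6)))))
    (by
      rw [Nat.card_prod]
      have h1 : Nat.card M.W * 1 ≤ Nat.card M.W * (s * (s * XX M s (5 * G + 6))) :=
        Nat.mul_le_mul_left _ (by omega)
      have h2 : Nat.card Bool = 2 := by simp
      rw [h2]
      omega)
    (by
      have h1 : 1 ≤ Nat.card M.W * (s * (s * XX M s (5 * G + 6))) :=
        Nat.mul_pos hW1 (by omega)
      omega)
    (fun k => cnt_mainP hs1 k) (fun k => cnt_finP hs1 k)
  have hZpos : 1 ≤ bl s * (30 * (Nat.card M.W * (s * (s * XX M s (5 * G + 6))))) := by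
    have h1 : 1 ≤ Nat.card M.W * (s * (s * XX M s (5 * G + 6))) :=
      Nat.mul_pos hW1 (by omega)
    exact Nat.mul_pos (by omega) (by omega)
  have hsize := Plan.size_mach_le (P := plan strict M c0 e hs1 (5 * G + 6)) hZpos hcard
    (Y := Nat.card (Tp M)) (le_of_eq hTp.symm) (by
      rw [hTp, hWR]
      nlinarith [Nat.zero_le (Nat.card A * Nat.card M.W)])
  refine ⟨(plan strict M c0 e hs1 (5 * G + 6)).mach, Plan.mach_det _,
    plan_language hW hs1 hV, hsize.trans ?_⟩
  rw [← hG]
  have h3 : G ≤ G * G := Nat.le_mul_of_pos_left G hG1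
  calc 34 * (bl s * (30 * (Nat.card M.W * (s * (s * XX M s (5 * G + 6))))) * Nat.card (Tp M))
      = 1020 * (bl s * (Nat.card M.W * ((s * s) * (XX M s (5 * G + 6) * Nat.card (Tp M))))) := by
        ring
    _ ≤ 2 ^ 10 * (2 ^ (2 * G + 1) * (2 ^ G * (2 ^ (2 * G) *
          (2 ^ ((5 * G + 7) * (5 * G + 6) + (2 * G + 5)) * 2 ^ (2 * G + 3))))) :=
        Nat.mul_le_mul (by norm_num) (Nat.mul_le_mul hB (Nat.mul_le_mul hwg
          (Nat.mul_le_mul hss (Nat.mul_le_mul hX hT))))
    _ = 2 ^ (25 * G ^ 2 + 74 * G + 61) := by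
        rw [← pow_add, ← pow_add, ← pow_add, ← pow_add, ← pow_add]
        congr 1
        ring
    _ ≤ 2 ^ (170 * G ^ 2) := by
        apply Nat.pow_le_pow_right (by omega)
        rw [pow_two]
        omega

end Pool.Agent.TH588.WD
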